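import Mathlib

open MeasureTheory ProbabilityTheory Set
open scoped RealInnerProductSpace ENNReal

namespace Pool.Agent.Helper67.MaxMeas

/-- change of variables `t = (s + √(s²+4a))/2`, mapping `ℝ` onto `(0,∞)` and inverting
`s = t - a/t`. -/
noncomputable def phi (a s : ℝ) : ℝ := (s + Real.sqrt (s ^ 2 + 4 * a)) / 2

lemma phi_pos {a : ℝ} (ha : 0 < a) (s : ℝ) : 0 < phi a s := by
  have h1 : |s| < Real.sqrt (s ^ 2 + 4 * a) := by
    rw [← Real.sqrt_sq_eq_abs]
    exact Real.sqrt_lt_sqrt (sq_nonneg _) (by linarith)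
  have h2 := neg_abs_le s
  unfold phi
  linarith

lemma phi_sub {a : ℝ} (ha : 0 < a) (s : ℝ) : phi a s - a / phi a s = s := by
  have hp := phi_pos ha s
  have hs : Real.sqrt (s ^ 2 + 4 * a) ^ 2 = s ^ 2 + 4 * a := Real.sq_sqrt (by positivity)
  have h3 : phi a s ^ 2 - a = s * phi a s := by
    unfold phi
    nlinarith
  have hp' := hp.ne'
  field_simp
  linarith

lemma phi_inv {a t : ℝ} (ht : 0 < t) (ha : 0 < a) : phi a (t - a / t) = t := by
  unfold phi
  have : (t - a / t) ^ 2 + 4 * a = (t + a / t) ^ 2 := by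
    field_simp
    ring
  rw [this, Real.sqrt_sq (by positivity)]
  ring

lemma image_phi {a : ℝ} (ha : 0 < a) : phi a '' univ = Ioi 0 := by
  ext t
  constructor
  · rintro ⟨s, -, rfl⟩
    exact phi_pos ha s
  · intro ht
    exact ⟨t - a / t, mem_univ _, phi_inv ht ha⟩

lemma phi_injOn {a : ℝ} (ha : 0 < a) : InjOn (phi a) univ := by
  intro s _ t _ h
  rw [← phi_sub ha s, ← phi_sub ha t, h]

lemma hasDerivAt_phi {a : ℝ} (ha : 0 < a) (s : ℝ) :
    HasDerivAt (phi a) ((1 + s / Real.sqrt (s ^ 2 + 4 * a)) / 2) s := by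
  unfold phi
  have hpos : 0 < s ^ 2 + 4 * a := by positivity
  have h1 : HasDerivAt (fun s : ℝ => s ^ 2 + 4 * a) (2 * s) s := by
    simpa using (hasDerivAt_pow 2 s).add_const (4 * a)
  have h2 := h1.sqrt hpos.ne'
  have h3 := ((hasDerivAt_id s).add h2).div_const 2
  rw [mul_div_mul_left _ _ (two_ne_zero : (2 : ℝ) ≠ 0)] at h3
  exact h3

lemma deriv_phi_nonneg {a : ℝ} (ha : 0 < a) (s : ℝ) :
    0 ≤ (1 + s / Real.sqrt (s ^ 2 + 4 * a)) / 2 := by
  have hpos : 0 < Real.sqrt (s ^ 2 + 4 * a) := Real.sqrt_pos.2 (by positivity)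
  have h1 : |s| ≤ Real.sqrt (s ^ 2 + 4 * a) := by
    rw [← Real.sqrt_sq_eq_abs]
    exact Real.sqrt_le_sqrt (by linarith)
  have h2 : -1 ≤ s / Real.sqrt (s ^ 2 + 4 * a) := by
    rw [le_div_iff₀ hpos]
    have := neg_abs_le s
    linarith
  linarith

lemma integral_exp_half_sq : ∫ s : ℝ, Real.exp (-(s ^ 2) / 2) = Real.sqrt (2 * Real.pi) := by
  have := integral_gaussian (1 / 2)
  rw [show Real.pi / (1 / 2) = 2 * Real.pi by ring] at this
  rw [← this]
  congr 1
  ext s
  congr 1
  ring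

lemma integrable_exp_half_sq : Integrable (fun s : ℝ => Real.exp (-(s ^ 2) / 2)) := by
  have := integrable_exp_neg_mul_sq (b := 1 / 2) (by norm_num)
  refine this.congr (Filter.Eventually.of_forall fun s => ?_)
  simp only
  congr 1
  ring

lemma integral_half {a : ℝ} (ha : 0 < a) :
    ∫ t in Ioi (0 : ℝ), Real.exp (-((t - a / t) ^ 2) / 2) = Real.sqrt (2 * Real.pi) / 2 := by
  have h := integral_image_eq_integral_abs_deriv_smul (s := univ) MeasurableSet.univ
    (fun s _ => (hasDerivAt_phi ha s).hasDerivWithinAt) (phi_injOn ha)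
    (fun t => Real.exp (-((t - a / t) ^ 2) / 2))
  rw [image_phi ha] at h
  rw [h]
  simp only [Measure.restrict_univ, phi_sub ha, abs_of_nonneg (deriv_phi_nonneg ha _), smul_eq_mul]
  have hodd : ∫ s : ℝ, (s / Real.sqrt (s ^ 2 + 4 * a)) * Real.exp (-(s ^ 2) / 2) = 0 := by
    have h1 := integral_neg_eq_self
      (fun s : ℝ => (s / Real.sqrt (s ^ 2 + 4 * a)) * Real.exp (-(s ^ 2) / 2)) volume
    have h2 : ∫ s : ℝ, ((-s) / Real.sqrt ((-s) ^ 2 + 4 * a)) * Real.exp (-((-s) ^ 2) / 2) =
        - ∫ s : ℝ, (s / Real.sqrt (s ^ 2 + 4 * a)) * Real.exp (-(s ^ 2) / 2) := by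
      rw [← integral_neg]
      congr 1
      ext s
      rw [neg_sq]
      ring
    have h3 : ∫ s : ℝ, (s / Real.sqrt (s ^ 2 + 4 * a)) * Real.exp (-(s ^ 2) / 2) =
      - ∫ s : ℝ, (s / Real.sqrt (s ^ 2 + 4 * a)) * Real.exp (-(s ^ 2) / 2) := by
      rw [← h2]; exact h1.symm
    linarith
  have hint : Integrable
      (fun s : ℝ => (s / Real.sqrt (s ^ 2 + 4 * a)) * Real.exp (-(s ^ 2) / 2)) := by
    refine integrable_exp_half_sq.bdd_mul (c := 1) ?_ (Filter.Eventually.of_forall fun s => ?_)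
    · exact (by fun_prop : Measurable fun s : ℝ => s / Real.sqrt (s ^ 2 + 4 * a)).aestronglyMeasurable
    · have hpos : 0 < Real.sqrt (s ^ 2 + 4 * a) := Real.sqrt_pos.2 (by positivity)
      have h1 : |s| ≤ Real.sqrt (s ^ 2 + 4 * a) := by
        rw [← Real.sqrt_sq_eq_abs]
        exact Real.sqrt_le_sqrt (by linarith)
      rw [Real.norm_eq_abs, abs_div, abs_of_pos hpos, div_le_one hpos]
      exact h1
  calc ∫ s : ℝ, (1 + s / Real.sqrt (s ^ 2 + 4 * a)) / 2 * Real.exp (-(s ^ 2) / 2)
      = ∫ s : ℝ, ((1 / 2) * Real.exp (-(s ^ 2) / 2) +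
          (1 / 2) * ((s / Real.sqrt (s ^ 2 + 4 * a)) * Real.exp (-(s ^ 2) / 2))) := by
        congr 1
        ext s
        ring
    _ = Real.sqrt (2 * Real.pi) / 2 := by
        rw [integral_add (integrable_exp_half_sq.const_mul _) (hint.const_mul _),
          integral_const_mul, integral_const_mul, hodd, integral_exp_half_sq]
        ring

/-- `E[exp(-a²/(2 T²))] = exp(-a)` for `T` standard normal. -/
lemma integral_gaussian_inv_sq {a : ℝ} (ha : 0 ≤ a) :
    ∫ t, Real.exp (-(a ^ 2 / (2 * t ^ 2))) ∂(gaussianReal 0 1) = Real.exp (-a) := by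
  rcases ha.eq_or_lt with rfl | ha
  · simp
  rw [integral_gaussianReal_eq_integral_smul one_ne_zero]
  have h1 : ∀ t : ℝ, gaussianPDFReal 0 1 t • Real.exp (-(a ^ 2 / (2 * t ^ 2))) =
      (fun u : ℝ => (Real.sqrt (2 * Real.pi))⁻¹ *
        (Real.exp (-(u ^ 2) / 2) * Real.exp (-(a ^ 2 / (2 * u ^ 2))))) |t| := by
    intro t
    simp only [sq_abs, gaussianPDFReal_def, smul_eq_mul, NNReal.coe_one, mul_one, sub_zero]
    ring
  rw [integral_congr_ae (Filter.Eventually.of_forall h1),
    integral_comp_abs (f := fun u : ℝ => (Real.sqrt (2 * Real.pi))⁻¹ *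
        (Real.exp (-(u ^ 2) / 2) * Real.exp (-(a ^ 2 / (2 * u ^ 2))))), integral_const_mul]
  have h2 : ∫ t in Ioi (0 : ℝ), Real.exp (-(t ^ 2) / 2) * Real.exp (-(a ^ 2 / (2 * t ^ 2))) =
      Real.exp (-a) * (Real.sqrt (2 * Real.pi) / 2) := by
    rw [← integral_half ha, ← integral_const_mul]
    refine setIntegral_congr_fun measurableSet_Ioi fun t ht => ?_
    have ht' : t ≠ 0 := ne_of_gt ht
    simp only [← Real.exp_add]
    congr 1
    field_simp
    ring
  rw [h2]
  have h3 : Real.sqrt (2 * Real.pi) ≠ 0 := (Real.sqrt_pos.2 (by positivity)).ne'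
  field_simp

section PD

variable {E : Type*} [NormedAddCommGroup E] [InnerProductSpace ℝ E] [FiniteDimensional ℝ E]
  [MeasurableSpace E] [BorelSpace E]

/-- the multivariate Cauchy law: law of `Z / T` for independent standard normals `Z` in `E`,
`T` in `ℝ`. -/
noncomputable def cauchyLaw (E : Type*) [NormedAddCommGroup E] [InnerProductSpace ℝ E]
    [FiniteDimensional ℝ E] [MeasurableSpace E] : Measure E :=
  ((stdGaussian E).prod (gaussianReal 0 1)).map (fun p => (p.2)⁻¹ • p.1)

lemma measurable_smul_inv : Measurable (fun p : E × ℝ => (p.2)⁻¹ • p.1) := by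
  fun_prop

instance : IsProbabilityMeasure (cauchyLaw E) := by
  unfold cauchyLaw
  exact Measure.isProbabilityMeasure_map measurable_smul_inv.aemeasurable

lemma charFun_cauchyLaw (z : E) : charFun (cauchyLaw E) z = Complex.exp (-(‖z‖ : ℝ)) := by
  rw [charFun_apply, cauchyLaw, integral_map measurable_smul_inv.aemeasurable
    (by fun_prop)]
  have hint : Integrable (fun p : E × ℝ => Complex.exp ((⟪(p.2)⁻¹ • p.1, z⟫ : ℝ) * Complex.I))
      ((stdGaussian E).prod (gaussianReal 0 1)) := by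
    refine (integrable_const (1 : ℝ)).mono' (by fun_prop) (Filter.Eventually.of_forall fun p => ?_)
    rw [Complex.norm_exp_ofReal_mul_I]
  rw [integral_prod_symm _ hint]
  have h1 : ∀ t : ℝ, ∫ x, Complex.exp ((⟪(t)⁻¹ • x, z⟫ : ℝ) * Complex.I) ∂(stdGaussian E) =
      ((Real.exp (-(‖z‖ ^ 2 / (2 * t ^ 2))) : ℝ) : ℂ) := by
    intro t
    have : ∀ x : E, (⟪(t)⁻¹ • x, z⟫ : ℝ) = ⟪x, t⁻¹ • z⟫ := by
      intro x; rw [real_inner_smul_left, real_inner_smul_right]
    simp_rw [this]
    rw [← charFun_apply, charFun_stdGaussian, norm_smul, Complex.ofReal_exp]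
    congr 1
    push_cast
    rw [norm_inv, Real.norm_eq_abs, mul_pow]
    have h2 : (((|t|⁻¹ : ℝ) : ℂ)) ^ 2 = ((t ^ 2)⁻¹ : ℝ) := by
      rw [← Complex.ofReal_pow, inv_pow, sq_abs]
    rw [h2]
    push_cast
    rw [mul_comm (2 : ℂ), ← div_div, div_eq_mul_inv (_ ^ 2) ((t : ℂ) ^ 2)]
    ring
  simp only
  simp_rw [h1]
  rw [integral_complex_ofReal, integral_gaussian_inv_sq (norm_nonneg z)]
  push_cast
  rfl

/-- the bilinear energy `∫∫ e^{-|x-y|} dμ dν`. -/
noncomputable def bil (μ ν : Measure E) : ℝ := ∫ x, ∫ y, Real.exp (-dist x y) ∂ν ∂μ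

lemma charFun_cont (μ : Measure E) [IsFiniteMeasure μ] : Continuous (charFun μ) := by
  exact MeasureTheory.continuous_charFun

lemma bil_eq (μ ν : Measure E) [IsFiniteMeasure μ] [IsFiniteMeasure ν] :
    (bil μ ν : ℂ) = ∫ ξ, charFun μ ξ * (starRingEnd ℂ) (charFun ν ξ) ∂(cauchyLaw E) := by
  have hk : ∀ x y : E, ((Real.exp (-dist x y) : ℝ) : ℂ) =
      ∫ ξ, Complex.exp ((⟪ξ, x⟫ : ℝ) * Complex.I) * Complex.exp (-(⟪ξ, y⟫ : ℝ) * Complex.I)
        ∂(cauchyLaw E) := by
    intro x y
    rw [dist_eq_norm]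
    have := charFun_cauchyLaw (x - y)
    rw [charFun_apply] at this
    push_cast
    rw [← this]
    congr 1
    ext ξ
    rw [← Complex.exp_add, inner_sub_right]
    congr 1
    push_cast
    ring
  unfold bil
  rw [← integral_complex_ofReal]
  simp_rw [← integral_complex_ofReal, hk]
  have h1 : ∀ x : E, ∫ y, ∫ ξ, Complex.exp ((⟪ξ, x⟫ : ℝ) * Complex.I) *
      Complex.exp (-(⟪ξ, y⟫ : ℝ) * Complex.I) ∂(cauchyLaw E) ∂ν =
      ∫ ξ, Complex.exp ((⟪ξ, x⟫ : ℝ) * Complex.I) * (starRingEnd ℂ) (charFun ν ξ)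
        ∂(cauchyLaw E) := by
    intro x
    rw [integral_integral_swap]
    · congr 1
      ext ξ
      rw [integral_const_mul]
      congr 1
      rw [charFun_apply, ← integral_conj]
      congr 1
      ext y
      rw [← Complex.exp_conj]
      congr 1
      simp only [map_mul, Complex.conj_I, Complex.conj_ofReal]
      rw [real_inner_comm]
      ring
    · refine (integrable_const (1 : ℝ)).mono' ?_ (Filter.Eventually.of_forall fun p => ?_)
      · have : Continuous (Function.uncurry fun (y : E) (ξ : E) =>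
            Complex.exp ((⟪ξ, x⟫ : ℝ) * Complex.I) * Complex.exp (-(⟪ξ, y⟫ : ℝ) * Complex.I)) := by
          simp only [Function.uncurry_def]
          fun_prop
        exact this.aestronglyMeasurable
      · simp only [Function.uncurry_def, norm_mul]
        rw [Complex.norm_exp_ofReal_mul_I, ← Complex.ofReal_neg, Complex.norm_exp_ofReal_mul_I]
        simp
  simp_rw [h1]
  rw [integral_integral_swap]
  · congr 1
    ext ξ
    rw [integral_mul_const]
    congr 1
    rw [charFun_apply]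
    congr 1
    ext y
    rw [real_inner_comm]
  · refine (integrable_const (ν.real univ)).mono' ?_ (Filter.Eventually.of_forall fun p => ?_)
    · have : Continuous (Function.uncurry fun (x : E) (ξ : E) =>
            Complex.exp ((⟪ξ, x⟫ : ℝ) * Complex.I) * (starRingEnd ℂ) (charFun ν ξ)) := by
        simp only [Function.uncurry_def]
        have := charFun_cont ν
        have h2 : Continuous fun p : E × E => (starRingEnd ℂ) (charFun ν p.2) :=
          Complex.continuous_conj.comp (this.comp continuous_snd)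
        fun_prop
      exact this.aestronglyMeasurable
    · simp only [Function.uncurry_def, norm_mul]
      rw [Complex.norm_exp_ofReal_mul_I, one_mul, RCLike.norm_conj]
      exact norm_charFun_le _

lemma integrable_charFun_mul (μ ν : Measure E) [IsFiniteMeasure μ] [IsFiniteMeasure ν] :
    Integrable (fun ξ => charFun μ ξ * (starRingEnd ℂ) (charFun ν ξ)) (cauchyLaw E) := by
  refine (integrable_const (μ.real univ * ν.real univ)).mono' ?_
    (Filter.Eventually.of_forall fun p => ?_)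
  · exact ((charFun_cont μ).mul (Complex.continuous_conj.comp (charFun_cont ν))).aestronglyMeasurable
  · rw [norm_mul, RCLike.norm_conj]
    exact mul_le_mul (norm_charFun_le _) (norm_charFun_le _) (norm_nonneg _) measureReal_nonneg

lemma bil_sub (μ ν : Measure E) [IsFiniteMeasure μ] [IsFiniteMeasure ν] :
    bil μ μ - bil μ ν - bil ν μ + bil ν ν = ∫ ξ, ‖charFun μ ξ - charFun ν ξ‖ ^ 2 ∂(cauchyLaw E) := by
  have h : ((bil μ μ - bil μ ν - bil ν μ + bil ν ν : ℝ) : ℂ) =
      ((∫ ξ, ‖charFun μ ξ - charFun ν ξ‖ ^ 2 ∂(cauchyLaw E) : ℝ) : ℂ) := by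
    push_cast
    have i1 := integrable_charFun_mul μ μ
    have i2 := integrable_charFun_mul μ ν
    have i3 := integrable_charFun_mul ν μ
    have i4 := integrable_charFun_mul ν ν
    have e1 := integral_sub i1 i2
    have e2 := integral_sub (i1.sub i2) i3
    have e3 := integral_add ((i1.sub i2).sub i3) i4
    simp only [Pi.sub_apply] at e1 e2 e3
    rw [bil_eq, bil_eq, bil_eq, bil_eq, ← integral_complex_ofReal, ← e1, ← e2, ← e3]
    congr 1
    ext ξ
    push_cast
    rw [← Complex.mul_conj']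
    simp only [map_sub]
    ring
  exact_mod_cast h

lemma bil_sub_nonneg (μ ν : Measure E) [IsFiniteMeasure μ] [IsFiniteMeasure ν] :
    0 ≤ bil μ μ - bil μ ν - bil ν μ + bil ν ν := by
  rw [bil_sub]
  exact integral_nonneg fun ξ => by positivity

instance isOpenPos_gaussianReal : (gaussianReal 0 1).IsOpenPosMeasure :=
  (gaussianReal_absolutelyContinuous' 0 one_ne_zero).isOpenPosMeasure

instance isOpenPos_stdGaussian : (stdGaussian E).IsOpenPosMeasure := by
  unfold stdGaussian
  refine Continuous.isOpenPosMeasure_map (by fun_prop) ?_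
  intro x
  refine ⟨fun i => ⟪stdOrthonormalBasis ℝ E i, x⟫, ?_⟩
  exact (stdOrthonormalBasis ℝ E).sum_repr' x

lemma eq_of_bil_sub_eq_zero (μ ν : Measure E) [IsFiniteMeasure μ] [IsFiniteMeasure ν]
    (h : bil μ μ - bil μ ν - bil ν μ + bil ν ν = 0) : μ = ν := by
  rw [bil_sub, integral_eq_zero_iff_of_nonneg (fun ξ => by positivity)] at h
  swap
  · refine (integrable_const ((μ.real univ + ν.real univ) ^ 2)).mono' ?_
      (Filter.Eventually.of_forall fun p => ?_)
    · exact (((charFun_cont μ).sub (charFun_cont ν)).norm.pow 2).aestronglyMeasurable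
    · rw [Real.norm_eq_abs, abs_of_nonneg (by positivity)]
      gcongr
      exact (norm_sub_le _ _).trans (add_le_add (norm_charFun_le _) (norm_charFun_le _))
  have h1 : ∀ᵐ ξ ∂(cauchyLaw E), charFun μ ξ = charFun ν ξ := by
    filter_upwards [h] with ξ hξ
    simpa [sub_eq_zero] using hξ
  rw [cauchyLaw, ae_map_iff measurable_smul_inv.aemeasurable
    (measurableSet_eq_fun (charFun_cont μ).measurable (charFun_cont ν).measurable)] at h1
  have h2 : ∀ᵐ t ∂(gaussianReal 0 1), ∀ᵐ x ∂(stdGaussian E),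
      charFun μ ((t)⁻¹ • x) = charFun ν ((t)⁻¹ • x) := by
    have h1' : ∀ᵐ p ∂((gaussianReal 0 1).prod (stdGaussian E)),
        charFun μ ((p.1)⁻¹ • p.2) = charFun ν ((p.1)⁻¹ • p.2) := by
      have := (Measure.measurePreserving_swap (μ := gaussianReal 0 1)
        (ν := stdGaussian E)).quasiMeasurePreserving.ae h1
      simpa using this
    exact Measure.ae_ae_of_ae_prod h1'
  have h3 : ∀ᵐ t ∂(gaussianReal 0 1), t ≠ 0 := by
    have : NullSingletonClass (gaussianReal 0 1) := nullSingletonClass_gaussianReal one_ne_zero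
    exact compl_mem_ae_iff.2 (measure_singleton 0)
  obtain ⟨t, ht, ht0⟩ := (h2.and h3).exists
  have h4 : (fun x : E => charFun μ ((t)⁻¹ • x)) = fun x : E => charFun ν ((t)⁻¹ • x) := by
    refine (Continuous.ae_eq_iff_eq (stdGaussian E) ?_ ?_).1 ht
    · exact (charFun_cont μ).comp (continuous_const_smul _)
    · exact (charFun_cont ν).comp (continuous_const_smul _)
  apply Measure.ext_of_charFun
  ext x
  have := congrFun h4 (t • x)
  simpa [smul_smul, inv_mul_cancel₀ ht0] using this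

end PD

end Pool.Agent.Helper67.MaxMeas
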