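import Pool.Agent.Helper67.MaxMeas.Defs

open Set Real
open Pool.Agent.Results.MP_91ee6f_gt (aIn aOut GapEq)

namespace Pool.Agent.Helper67.MaxMeas

noncomputable def fC (x : ℝ) : ℝ := x * cosh x - sinh x
noncomputable def fA (x : ℝ) : ℝ := 1 - cosh x + x / 2 * sinh x
noncomputable def fB (x : ℝ) : ℝ := (1 / 2) * (2 * x + x * cosh x - 3 * sinh x)

lemma hasDerivAt_fC (x : ℝ) : HasDerivAt fC (x * sinh x) x := by
  have h1 := (hasDerivAt_id' x).fun_mul (hasDerivAt_cosh x)
  exact (h1.fun_sub (hasDerivAt_sinh x)).congr_deriv (by ring)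

lemma hasDerivAt_fA (x : ℝ) : HasDerivAt fA (fC x / 2) x := by
  have h1 := ((hasDerivAt_id' x).div_const 2).fun_mul (hasDerivAt_sinh x)
  have h2 := (hasDerivAt_cosh x).const_sub 1
  exact (h2.fun_add h1).congr_deriv (by unfold fC; ring)

lemma hasDerivAt_fB (x : ℝ) : HasDerivAt fB (fA x) x := by
  have h1 := (hasDerivAt_id' x).fun_mul (hasDerivAt_cosh x)
  have h2 := ((hasDerivAt_id' x).const_mul 2)
  have h3 := (hasDerivAt_sinh x).const_mul 3
  exact (((h2.fun_add h1).fun_sub h3).const_mul (1 / 2)).congr_deriv (by unfold fA; ring)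

lemma monoOn_of_hasDeriv {f f' : ℝ → ℝ} (h : ∀ x, HasDerivAt f (f' x) x)
    (h0 : ∀ x, 0 ≤ x → 0 ≤ f' x) : MonotoneOn f (Ici 0) := by
  refine monotoneOn_of_deriv_nonneg (convex_Ici 0)
    (fun x _ => (h x).continuousAt.continuousWithinAt)
    (fun x _ => (h x).differentiableAt.differentiableWithinAt) ?_
  intro x hx
  rw [interior_Ici, mem_Ioi] at hx
  rw [(h x).deriv]
  exact h0 x hx.le

lemma fC_nonneg {x : ℝ} (hx : 0 ≤ x) : 0 ≤ fC x := by
  have := monoOn_of_hasDeriv hasDerivAt_fC
    (fun x hx => mul_nonneg hx (sinh_nonneg_iff.2 hx)) (mem_Ici.2 le_rfl) (mem_Ici.2 hx) hx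
  simpa [fC] using this

lemma fA_nonneg {x : ℝ} (hx : 0 ≤ x) : 0 ≤ fA x := by
  have := monoOn_of_hasDeriv hasDerivAt_fA
    (fun x hx => by have := fC_nonneg hx; positivity) (mem_Ici.2 le_rfl) (mem_Ici.2 hx) hx
  simpa [fA] using this

lemma fB_nonneg {x : ℝ} (hx : 0 ≤ x) : 0 ≤ fB x := by
  have := monoOn_of_hasDeriv hasDerivAt_fB
    (fun x hx => fA_nonneg hx) (mem_Ici.2 le_rfl) (mem_Ici.2 hx) hx
  simpa [fB] using this

lemma sinh_pos' {x : ℝ} (hx : 0 < x) : 0 < sinh x := sinh_pos_iff.2 hx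

lemma strictMonoOn_fC : StrictMonoOn fC (Ici 0) := by
  refine strictMonoOn_of_deriv_pos (convex_Ici 0)
    (fun x _ => (hasDerivAt_fC x).continuousAt.continuousWithinAt) ?_
  intro x hx
  rw [interior_Ici, mem_Ioi] at hx
  rw [(hasDerivAt_fC x).deriv]
  exact mul_pos hx (sinh_pos' hx)

lemma fC_pos {x : ℝ} (hx : 0 < x) : 0 < fC x := by
  have := strictMonoOn_fC (mem_Ici.2 le_rfl) (mem_Ici.2 hx.le) hx
  simpa [fC] using this

/-- unimodality lemma -/
lemma min_le_of_sign {f f' : ℝ → ℝ} {a b : ℝ} (hf : ∀ x ∈ Icc a b, HasDerivAt f (f' x) x)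
    (hs : ∀ s t, a < s → s < t → t < b → f' s < 0 → f' t ≤ 0) {x : ℝ} (hx : x ∈ Icc a b) :
    min (f a) (f b) ≤ f x := by
  by_cases h : ∃ s, a < s ∧ s < x ∧ f' s < 0
  · obtain ⟨s, has, hsx, hneg⟩ := h
    refine (min_le_right _ _).trans ?_
    have : AntitoneOn f (Icc x b) := by
      refine antitoneOn_of_deriv_nonpos (convex_Icc x b)
        (fun y hy => (hf y ⟨hx.1.trans hy.1, hy.2⟩).continuousAt.continuousWithinAt)
        (fun y hy => (hf y ?_).differentiableAt.differentiableWithinAt) ?_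
      · rw [interior_Icc] at hy
        exact ⟨hx.1.trans hy.1.le, hy.2.le⟩
      · intro y hy
        rw [interior_Icc] at hy
        rw [(hf y ⟨hx.1.trans hy.1.le, hy.2.le⟩).deriv]
        exact hs s y has (hsx.trans hy.1) hy.2 hneg
    exact this ⟨le_rfl, hx.2⟩ ⟨hx.2, le_rfl⟩ hx.2
  · push Not at h
    refine (min_le_left _ _).trans ?_
    have : MonotoneOn f (Icc a x) := by
      refine monotoneOn_of_deriv_nonneg (convex_Icc a x)
        (fun y hy => (hf y ⟨hy.1, hy.2.trans hx.2⟩).continuousAt.continuousWithinAt)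
        (fun y hy => (hf y ?_).differentiableAt.differentiableWithinAt) ?_
      · rw [interior_Icc] at hy
        exact ⟨hy.1.le, hy.2.le.trans hx.2⟩
      · intro y hy
        rw [interior_Icc] at hy
        rw [(hf y ⟨hy.1.le, hy.2.le.trans hx.2⟩).deriv]
        exact h y hy.1 hy.2
    exact this ⟨le_rfl, hx.1⟩ ⟨hx.1, le_rfl⟩ hx.1

lemma sinh_sub_nonneg {x : ℝ} (hx : 0 ≤ x) : 0 ≤ sinh x - x := by
  have := self_le_sinh_iff.2 hx
  linarith

/-- `coth x - 1/x` is nondecreasing. -/
lemma mono_ratio1 : MonotoneOn (fun x => fC x / (x * sinh x)) (Ioi 0) := by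
  have hd : ∀ x ∈ Ioi (0 : ℝ), HasDerivAt (fun x => fC x / (x * sinh x))
      ((sinh x ^ 2 - x ^ 2) / (x * sinh x) ^ 2) x := by
    intro x hx
    have hx0 : 0 < x := hx
    have h1 := (hasDerivAt_id' x).fun_mul (hasDerivAt_sinh x)
    have hne : x * sinh x ≠ 0 := (mul_pos hx0 (sinh_pos' hx0)).ne'
    refine ((hasDerivAt_fC x).fun_div h1 hne).congr_deriv ?_
    congr 1
    unfold fC
    have := cosh_sq x
    linear_combination (-x ^ 2) * this
  refine monotoneOn_of_deriv_nonneg (convex_Ioi 0)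
    (fun x hx => (hd x hx).continuousAt.continuousWithinAt)
    (fun x hx => (hd x (by simpa using hx)).differentiableAt.differentiableWithinAt) ?_
  intro x hx
  rw [interior_Ioi] at hx
  rw [(hd x hx).deriv]
  have hx0 : 0 < x := hx
  have h1 := sinh_sub_nonneg hx0.le
  have h2 := sinh_pos' hx0
  apply div_nonneg _ (sq_nonneg _)
  nlinarith

/-- `1/2 - tanh(x/2)/x` is nondecreasing. -/
lemma mono_ratio2 : MonotoneOn (fun x => fA x / (x * sinh x)) (Ioi 0) := by
  have hd : ∀ x ∈ Ioi (0 : ℝ), HasDerivAt (fun x => fA x / (x * sinh x))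
      ((cosh x - 1) * (sinh x - x) / (x * sinh x) ^ 2) x := by
    intro x hx
    have hx0 : 0 < x := hx
    have h1 := (hasDerivAt_id' x).fun_mul (hasDerivAt_sinh x)
    have hne : x * sinh x ≠ 0 := (mul_pos hx0 (sinh_pos' hx0)).ne'
    refine ((hasDerivAt_fA x).fun_div h1 hne).congr_deriv ?_
    congr 1
    unfold fC fA
    have := cosh_sq x
    linear_combination (x) * this
  refine monotoneOn_of_deriv_nonneg (convex_Ioi 0)
    (fun x hx => (hd x hx).continuousAt.continuousWithinAt)
    (fun x hx => (hd x (by simpa using hx)).differentiableAt.differentiableWithinAt) ?_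
  intro x hx
  rw [interior_Ioi] at hx
  rw [(hd x hx).deriv]
  have hx0 : 0 < x := hx
  have h1 := sinh_sub_nonneg hx0.le
  have h2 := one_le_cosh x
  apply div_nonneg _ (sq_nonneg _)
  exact mul_nonneg (by linarith) h1

/-- The gap function. -/
noncomputable def fV (a b x : ℝ) : ℝ := a * fC x - b * fA x - fB x

lemma hasDerivAt_fV (a b x : ℝ) :
    HasDerivAt (fV a b) (a * (x * sinh x) - b * (fC x / 2) - fA x) x :=
  (((hasDerivAt_fC x).const_mul a).fun_sub ((hasDerivAt_fA x).const_mul b)).fun_sub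
    (hasDerivAt_fB x)

lemma fV_zero (a b : ℝ) : fV a b 0 = 0 := by simp [fV, fC, fA, fB]

/-- positivity in the gap -/
lemma fV_nonneg {a b l : ℝ} (hb : 0 ≤ b) (hV : 0 ≤ fV a b l) {x : ℝ} (hx : x ∈ Icc 0 l) :
    0 ≤ fV a b x := by
  have h := min_le_of_sign (f := fV a b) (a := 0) (b := l)
    (fun y _ => hasDerivAt_fV a b y) ?_ hx
  · rw [fV_zero] at h
    exact (le_min le_rfl hV).trans h
  · intro s t hs hst _ hneg
    have ht : 0 < t := hs.trans hst
    have ps : 0 < s * sinh s := mul_pos hs (sinh_pos' hs)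
    have pt : 0 < t * sinh t := mul_pos ht (sinh_pos' ht)
    have m1 := mono_ratio1 (mem_Ioi.2 hs) (mem_Ioi.2 ht) hst.le
    have m2 := mono_ratio2 (mem_Ioi.2 hs) (mem_Ioi.2 ht) hst.le
    simp only at m1 m2
    have e : ∀ y, 0 < y * sinh y → a * (y * sinh y) - b * (fC y / 2) - fA y =
        (y * sinh y) * (a - b / 2 * (fC y / (y * sinh y)) - fA y / (y * sinh y)) := by
      intro y hy
      generalize y * sinh y = q at hy ⊢
      field_simp
    rw [e s ps] at hneg
    rw [e t pt]
    have hW : a - b / 2 * (fC s / (s * sinh s)) - fA s / (s * sinh s) < 0 := by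
      by_contra hc
      push Not at hc
      exact absurd hneg (not_lt.2 (mul_nonneg ps.le hc))
    have hWt : a - b / 2 * (fC t / (t * sinh t)) - fA t / (t * sinh t) ≤ 0 := by
      have : b / 2 * (fC s / (s * sinh s)) ≤ b / 2 * (fC t / (t * sinh t)) :=
        mul_le_mul_of_nonneg_left m1 (by positivity)
      linarith
    exact mul_nonpos_of_nonneg_of_nonpos pt.le hWt

/-- `x coth x` is nondecreasing. -/
lemma mono_ratio3 : MonotoneOn (fun x => x * cosh x / sinh x) (Ioi 0) := by
  have hd : ∀ x ∈ Ioi (0 : ℝ), HasDerivAt (fun x => x * cosh x / sinh x)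
      ((sinh x * cosh x - x) / (sinh x) ^ 2) x := by
    intro x hx
    have hx0 : 0 < x := hx
    have h1 := (hasDerivAt_id' x).fun_mul (hasDerivAt_cosh x)
    refine (h1.fun_div (hasDerivAt_sinh x) (sinh_pos' hx0).ne').congr_deriv ?_
    congr 1
    have := cosh_sq x
    linear_combination (-x) * this
  refine monotoneOn_of_deriv_nonneg (convex_Ioi 0)
    (fun x hx => (hd x hx).continuousAt.continuousWithinAt)
    (fun x hx => (hd x (by simpa using hx)).differentiableAt.differentiableWithinAt) ?_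
  intro x hx
  rw [interior_Ioi] at hx
  rw [(hd x hx).deriv]
  have hx0 : 0 < x := hx
  have h1 := sinh_sub_nonneg hx0.le
  have h2 := one_le_cosh x
  have h3 := sinh_pos' hx0
  apply div_nonneg _ (sq_nonneg _)
  nlinarith

/-- the one-sphere regime -/
lemma small_regime {R : ℝ} (hR : 0 < R) (hc : (1 + R) * sinh R - R * cosh R ≤ R ^ 2) {r : ℝ}
    (hr : r ∈ Icc 0 R) :
    r * ((1 + R) * sinh R - R * cosh R) ≤ R * ((1 + R) * sinh r - r * cosh r) := by
  set c := ((1 + R) * sinh R - R * cosh R) / R with hcdef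
  have hcR : c * R = (1 + R) * sinh R - R * cosh R := by
    rw [hcdef]; field_simp
  have hcle : c ≤ R := by
    rw [hcdef, div_le_iff₀ hR]
    nlinarith
  -- the function P and its derivatives
  have hP : ∀ x, HasDerivAt (fun x => (1 + R) * sinh x - x * cosh x - c * x)
      (R * cosh x - x * sinh x - c) x := by
    intro x
    have h1 := (hasDerivAt_sinh x).const_mul (1 + R)
    have h2 := (hasDerivAt_id' x).fun_mul (hasDerivAt_cosh x)
    have h3 := (hasDerivAt_id' x).const_mul c
    exact ((h1.fun_sub h2).fun_sub h3).congr_deriv (by ring)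
  have hP' : ∀ x, HasDerivAt (fun x => R * cosh x - x * sinh x - c)
      ((R - 1) * sinh x - x * cosh x) x := by
    intro x
    have h1 := (hasDerivAt_cosh x).const_mul R
    have h2 := (hasDerivAt_id' x).fun_mul (hasDerivAt_sinh x)
    exact ((h1.fun_sub h2).sub_const c).congr_deriv (by ring)
  have sgn : ∀ s t, 0 < s → s < t → (R - 1) * sinh s - s * cosh s < 0 →
      (R - 1) * sinh t - t * cosh t ≤ 0 := by
    intro s t hs hst h
    have ht : 0 < t := hs.trans hst
    have m := mono_ratio3 (mem_Ioi.2 hs) (mem_Ioi.2 ht) hst.le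
    simp only at m
    have h1 : R - 1 < s * cosh s / sinh s := by
      rw [lt_div_iff₀ (sinh_pos' hs)]; linarith
    have h2 : R - 1 ≤ t * cosh t / sinh t := h1.le.trans m
    rw [le_div_iff₀ (sinh_pos' ht)] at h2
    linarith
  have key := min_le_of_sign (f := fun x => (1 + R) * sinh x - x * cosh x - c * x) (a := 0)
    (b := R) (fun y _ => hP y) ?_ hr
  · simp only [sinh_zero, mul_zero, zero_mul, hcR, sub_self, min_self] at key
    have h2 : 0 ≤ R * ((1 + R) * sinh r - r * cosh r - c * r) := mul_nonneg hR.le key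
    have h3 : R * (c * r) = r * ((1 + R) * sinh R - R * cosh R) := by rw [← hcR]; ring
    linarith
  · intro s t hs hst htR hneg
    have k2 := min_le_of_sign (f := fun x => R * cosh x - x * sinh x - c) (a := 0) (b := t)
      (fun y _ => hP' y) (fun s' t' h1 h2 _ h4 => sgn s' t' h1 h2 h4)
      (x := s) ⟨hs.le, hst.le⟩
    simp only [cosh_zero, sinh_zero, mul_one, mul_zero, sub_zero] at k2
    rcases min_le_iff.1 k2 with h | h
    · linarith
    · linarith

lemma gap_identity {b R : ℝ} (hbR : b < R) :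
    4 * (R - b) * exp (R - b) * fV (aIn b R) b (R - b) =
      (b + 2) * (exp (2 * (R - b)) - 1) + 2 * b * (R - b) * (R - b + 1) -
        4 * (R - b) * (R * exp (R - b) + 1) := by
  obtain ⟨l, hl⟩ : ∃ l, l = R - b := ⟨_, rfl⟩
  have hR : R = b + l := by linarith
  have hl0 : 0 < l := by linarith
  rw [← hl]
  unfold fV fA fB fC aIn
  rw [← hl, cosh_eq, sinh_eq, exp_neg, show exp (2 * l) = exp l ^ 2 by rw [two_mul, exp_add, sq],
    hR]
  have := exp_pos l
  field_simp
  ring

lemma gapEq_iff {b R : ℝ} (hbR : b < R) : GapEq R b ↔ fV (aIn b R) b (R - b) = 0 := by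
  have h := gap_identity hbR
  have hpos : 0 < 4 * (R - b) * exp (R - b) := by
    have : 0 < R - b := by linarith
    positivity
  unfold GapEq
  constructor
  · intro h1
    have : 4 * (R - b) * exp (R - b) * fV (aIn b R) b (R - b) = 0 := by linarith
    rcases mul_eq_zero.1 this with h2 | h2
    · exact absurd h2 hpos.ne'
    · exact h2
  · intro h1
    rw [h1, mul_zero] at h
    linarith

/-- existence of the inner radius -/
lemma exists_gap {R : ℝ} (hR : 0 < R) (h : 1 + 2 * R + 2 * R ^ 2 * exp R < exp (2 * R)) :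
    ∃ b, 0 < b ∧ b < R ∧ GapEq R b := by
  set Φ : ℝ → ℝ := fun b => (b + 2) * (exp (2 * (R - b)) - 1) + 2 * b * (R - b) * (R - b + 1) -
        4 * (R - b) * (R * exp (R - b) + 1) with hΦ
  have hcont : Continuous Φ := by simp only [hΦ]; fun_prop
  set l := min 1 (R / 2) with hl
  have hl0 : 0 < l := lt_min one_pos (by positivity)
  have hl1 : l ≤ 1 := min_le_left _ _
  have hlR : l < R := (min_le_right _ _).trans_lt (by linarith)
  have h0 : 0 < Φ 0 := by
    simp only [hΦ, sub_zero, zero_add, mul_zero, zero_mul, add_zero]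
    nlinarith
  have h1 : Φ (R - l) < 0 := by
    have hid := gap_identity (b := R - l) (R := R) (by linarith)
    have e : R - (R - l) = l := by ring
    rw [e] at hid
    simp only [hΦ, e]
    rw [← hid]
    have hb : 0 ≤ R - l := by linarith
    have ha : aIn (R - l) R < 0 := by
      unfold aIn
      rw [e]
      have : (R - l) + 2 ≤ ((R - l) + 2) / l := by
        rw [le_div_iff₀ hl0]
        nlinarith
      linarith
    have hVneg : fV (aIn (R - l) R) (R - l) l < 0 := by
      unfold fV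
      have c1 := fC_pos hl0
      have c2 := fA_nonneg hl0.le
      have c3 := fB_nonneg hl0.le
      nlinarith [mul_nonneg hb c2, mul_neg_of_neg_of_pos ha c1]
    have : 0 < 4 * l * exp l := by positivity
    exact mul_neg_of_pos_of_neg this hVneg
  have hivt := intermediate_value_Ioo' (a := 0) (b := R - l) (by linarith) hcont.continuousOn
  obtain ⟨b, hb, hb0⟩ := hivt ⟨h1, h0⟩
  refine ⟨b, hb.1, by linarith [hb.2], ?_⟩
  unfold GapEq
  simp only [hΦ] at hb0
  linarith

lemma aIn_pos {b R : ℝ} (hb : 0 ≤ b) (hbR : b < R) (h : fV (aIn b R) b (R - b) = 0) :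
    0 < aIn b R := by
  have hl : 0 < R - b := by linarith
  have c1 := fC_pos hl
  have c2 := fA_nonneg hl.le
  have c3 : 0 < fB (R - b) := by
    have hs : StrictMonoOn fA (Ici 0) := by
      refine strictMonoOn_of_deriv_pos (convex_Ici 0)
        (fun x _ => (hasDerivAt_fA x).continuousAt.continuousWithinAt) ?_
      intro x hx
      rw [interior_Ici, mem_Ioi] at hx
      rw [(hasDerivAt_fA x).deriv]
      have := fC_pos hx
      positivity
    have hs2 : StrictMonoOn fB (Ici 0) := by
      refine strictMonoOn_of_deriv_pos (convex_Ici 0)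
        (fun x _ => (hasDerivAt_fB x).continuousAt.continuousWithinAt) ?_
      intro x hx
      rw [interior_Ici, mem_Ioi] at hx
      rw [(hasDerivAt_fB x).deriv]
      have := hs (mem_Ici.2 le_rfl) (mem_Ici.2 hx.le) hx
      simpa [fA] using this
    have := hs2 (mem_Ici.2 le_rfl) (mem_Ici.2 hl.le) hl
    simpa [fB] using this
  unfold fV at h
  have h2 : 0 < aIn b R * fC (R - b) := by nlinarith [mul_nonneg hb c2]
  exact (mul_pos_iff_of_pos_right c1).1 h2

end Pool.Agent.Helper67.MaxMeas
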