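import Mathlib

open MeasureTheory Set Metric
open scoped ENNReal

namespace Pool.Agent.Results.MP_91ee6f_gt

/-- The potential `(Kμ)(x) = ∫ e^{-d(x,y)} dμ(y)` of a measure `μ` on a metric space. -/
noncomputable def potential {X : Type*} [MetricSpace X] [MeasurableSpace X]
    (μ : Measure X) (x : X) : ℝ :=
  ∫ y, Real.exp (-dist x y) ∂μ

/-- The diversity `D_q(μ)` of order `q ∈ [0,∞]`:
`(∫ (Kμ)^{q-1} dμ)^{1/(1-q)}` for `q ≠ 1, ∞`, and the limiting values
`D_1(μ) = exp(-∫ log(Kμ) dμ)` and `D_∞(μ) = 1 / sup_{x ∈ supp μ} (Kμ)(x)`. -/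
noncomputable def diversity {X : Type*} [MetricSpace X] [MeasurableSpace X]
    (q : ℝ≥0∞) (μ : Measure X) : ℝ :=
  if q = 1 then Real.exp (-∫ x, Real.log (potential μ x) ∂μ)
  else if q = ∞ then (⨆ x : μ.support, potential μ (x : X))⁻¹
  else (∫ x, potential μ x ^ (q.toReal - 1) ∂μ) ^ (1 / (1 - q.toReal))

/-- A maximising measure: a probability measure maximising `D_q` for every `q ∈ [0,∞]`
simultaneously. -/
def IsMaximising {X : Type*} [MetricSpace X] [MeasurableSpace X] (μ : Measure X) : Prop :=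
  IsProbabilityMeasure μ ∧
    ∀ ν : Measure X, IsProbabilityMeasure ν → ∀ q : ℝ≥0∞, diversity q ν ≤ diversity q μ

/-- Euclidean 3-space. -/
abbrev E3 : Type := EuclideanSpace ℝ (Fin 3)

/-- The uniform probability measure on the sphere of radius `s` about `0` in `ℝ³`: the
normalised surface measure of the unit sphere (Mathlib's `Measure.toSphere`) pushed forward
by `θ ↦ s θ`. -/
noncomputable def sphereUnif (s : ℝ) : Measure E3 :=
  ((volume : Measure E3).toSphere univ)⁻¹ •
    ((volume : Measure E3).toSphere).map (fun θ : sphere (0 : E3) 1 => s • (θ : E3))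

/-- The inner-sphere coefficient `a(b,R) = (b + 1 - (b+2)/(R-b)) / 2`. -/
noncomputable def aIn (b R : ℝ) : ℝ := (b + 1 - (b + 2) / (R - b)) / 2

/-- The outer-sphere coefficient `A(b,R) = (b+2) e^{R-b} / (2(R-b))`. -/
noncomputable def aOut (b R : ℝ) : ℝ := (b + 2) * Real.exp (R - b) / (2 * (R - b))

/-- The measure `w_{b,R} = (1/8π) Leb|_{B_b} + b a(b,R) σ_b + R A(b,R) σ_R` on `ℝ³`, where
`σ_s` is the uniform probability measure on the sphere of radius `s`. -/
noncomputable def wMeasure (b R : ℝ) : Measure E3 :=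
  ENNReal.ofReal (1 / (8 * Real.pi)) • (volume : Measure E3).restrict (closedBall 0 b) +
    ENNReal.ofReal (b * aIn b R) • sphereUnif b +
    ENNReal.ofReal (R * aOut b R) • sphereUnif R

/-- The equation `(b+2)(e^{2(R-b)} - 1) + 2b(R-b)(R-b+1) = 4(R-b)(R e^{R-b} + 1)` linking
the radius `R` of the ball and the radius `b` of the inner ball. -/
def GapEq (R b : ℝ) : Prop :=
  (b + 2) * (Real.exp (2 * (R - b)) - 1) + 2 * b * (R - b) * (R - b + 1) =
    4 * (R - b) * (R * Real.exp (R - b) + 1)

/-- A measure on the ball `B_R`, viewed as a measure on `ℝ³` (push-forward by inclusion). -/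
noncomputable def inSpace {R : ℝ} (μ : Measure (closedBall (0 : E3) R)) : Measure E3 :=
  μ.map Subtype.val

/-- `S` is a finite union of spheres centred at the origin (radius `0`, i.e. the centre itself,
and the empty union are allowed). -/
def IsFiniteUnionOfSpheres (S : Set E3) : Prop :=
  ∃ F : Set ℝ, F.Finite ∧ S = ⋃ r ∈ F, sphere (0 : E3) r

/-- `μ` is the uniform measure on the boundary sphere of `B_R`, its support is that sphere, and
all its diversities equal `2R²/(1-(1+2R)e^{-2R})`. -/
def OneSphereForm (R : ℝ) (μ : Measure (closedBall (0 : E3) R)) : Prop :=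
  inSpace μ = sphereUnif R ∧ (inSpace μ).support = sphere (0 : E3) R ∧
    ∀ q : ℝ≥0∞, diversity q μ = 2 * R ^ 2 / (1 - (1 + 2 * R) * Real.exp (-(2 * R)))

/-- The coefficients `a(b,R)` and `A(b,R)` are positive, `μ` is the normalisation of `w_{b,R}`,
its support is the solid ball `B_b` together with the sphere of radius `R`, and all its
diversities equal `b³/6 + b a(b,R) + R A(b,R)`. -/
def BallSphereForm (R b : ℝ) (μ : Measure (closedBall (0 : E3) R)) : Prop :=
  0 < aIn b R ∧ 0 < aOut b R ∧
    inSpace μ = (wMeasure b R univ)⁻¹ • wMeasure b R ∧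
    (inSpace μ).support = closedBall (0 : E3) b ∪ sphere (0 : E3) R ∧
    ∀ q : ℝ≥0∞, diversity q μ = b ^ 3 / 6 + b * aIn b R + R * aOut b R

end Pool.Agent.Results.MP_91ee6f_gt
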