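import Pool.Agent.Helper67.MaxMeas.Defs
import Pool.Agent.Helper67.MaxMeas.PD

open MeasureTheory Set Metric
open scoped ENNReal
open Pool.Agent.Results.MP_91ee6f_gt

namespace Pool.Agent.Helper67.MaxMeas

section general

variable {X : Type*} [MetricSpace X] [CompactSpace X] [MeasurableSpace X] [BorelSpace X]

/-- energy form on a metric space -/
noncomputable def bilX (μ ν : Measure X) : ℝ := ∫ x, potential ν x ∂μ

lemma continuous_kernel_left (y : X) : Continuous fun x : X => Real.exp (-dist x y) := by
  fun_prop

lemma kernel_le_one (x y : X) : Real.exp (-dist x y) ≤ 1 := by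
  rw [Real.exp_le_one_iff]
  linarith [dist_nonneg (x := x) (y := y)]

lemma continuous_potential (μ : Measure X) [IsFiniteMeasure μ] : Continuous (potential μ) := by
  refine continuous_of_dominated (bound := fun _ => 1) ?_ ?_ (integrable_const _) ?_
  · intro x
    exact (by fun_prop : Continuous fun y : X => Real.exp (-dist x y)).aestronglyMeasurable
  · intro x
    refine Filter.Eventually.of_forall fun y => ?_
    rw [Real.norm_eq_abs, abs_of_pos (Real.exp_pos _)]
    exact kernel_le_one x y
  · exact Filter.Eventually.of_forall fun y => continuous_kernel_left y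

lemma integrable_of_continuous (μ : Measure X) [IsFiniteMeasure μ] {f : X → ℝ}
    (hf : Continuous f) : Integrable f μ := by
  exact hf.integrable_of_hasCompactSupport (HasCompactSupport.of_compactSpace f)

lemma potential_nonneg (μ : Measure X) (x : X) : 0 ≤ potential μ x :=
  integral_nonneg fun _ => (Real.exp_pos _).le

lemma potential_le (μ : Measure X) [IsProbabilityMeasure μ] (x : X) : potential μ x ≤ 1 := by
  have : potential μ x ≤ ∫ _, (1 : ℝ) ∂μ := by
    refine integral_mono (integrable_of_continuous μ (by fun_prop)) (integrable_const _) ?_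
    intro y
    exact kernel_le_one x y
  simpa using this

lemma potential_pos_bound (X : Type*) [MetricSpace X] [CompactSpace X] [MeasurableSpace X]
    [BorelSpace X] :
    ∃ δ : ℝ, 0 < δ ∧ ∀ (μ : Measure X), IsProbabilityMeasure μ → ∀ x : X, δ ≤ potential μ x := by
  refine ⟨Real.exp (-diam (univ : Set X)), Real.exp_pos _, ?_⟩
  intro μ hμ x
  have : ∫ _, Real.exp (-diam (univ : Set X)) ∂μ ≤ potential μ x := by
    refine integral_mono (integrable_const _) (integrable_of_continuous μ (by fun_prop)) ?_
    intro y
    simp only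
    gcongr
    exact dist_le_diam_of_mem isCompact_univ.isBounded (mem_univ _) (mem_univ _)
  simpa using this

lemma potential_pos (μ : Measure X) [IsProbabilityMeasure μ] (x : X) : 0 < potential μ x := by
  obtain ⟨δ, hδ, h⟩ := potential_pos_bound X
  exact hδ.trans_le (h μ inferInstance x)

lemma bilX_comm (μ ν : Measure X) [IsFiniteMeasure μ] [IsFiniteMeasure ν] :
    bilX μ ν = bilX ν μ := by
  unfold bilX potential
  rw [integral_integral_swap]
  · simp_rw [dist_comm]
  · have : Continuous (Function.uncurry fun x y : X => Real.exp (-dist x y)) := by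
      simp only [Function.uncurry_def]
      fun_prop
    exact this.integrable_of_hasCompactSupport (HasCompactSupport.of_compactSpace _)

/-- If the energy form satisfies `E(w) ≥ c |w|²` for all finite `w`, then
`∫ (Kν)⁻¹ dν ≤ 1/c` for all probability measures `ν`. -/
lemma integral_inv_potential_le {c : ℝ} (hc : 0 < c)
    (h : ∀ w : Measure X, IsFiniteMeasure w → c * (w.real univ) ^ 2 ≤ bilX w w)
    (ν : Measure X) [IsProbabilityMeasure ν] : ∫ x, (potential ν x)⁻¹ ∂ν ≤ c⁻¹ := by
  set g : X → ℝ := fun x => (potential ν x)⁻¹ with hg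
  have hgpos : ∀ x, 0 < g x := fun x => inv_pos.2 (potential_pos ν x)
  have hgc : Continuous g := (continuous_potential ν).inv₀ fun x => (potential_pos ν x).ne'
  set w : Measure X := ν.withDensity (fun x => ((g x).toNNReal : ℝ≥0∞)) with hw
  have hmeas : Measurable fun x => (g x).toNNReal := hgc.measurable.real_toNNReal
  have hint : ∀ φ : X → ℝ, ∫ x, φ x ∂w = ∫ x, g x * φ x ∂ν := by
    intro φ
    rw [hw, integral_withDensity_eq_integral_smul hmeas]
    congr 1
    ext x
    rw [NNReal.smul_def, Real.coe_toNNReal _ (hgpos x).le, smul_eq_mul]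
  have hfin : IsFiniteMeasure w := by
    have : Integrable g ν := integrable_of_continuous ν hgc
    exact isFiniteMeasure_withDensity_ofReal this.2
  have hmass : w.real univ = ∫ x, g x ∂ν := by
    have := hint (fun _ => 1)
    simpa using this
  have hWpos : 0 < ∫ x, g x ∂ν := by
    obtain ⟨x0⟩ : Nonempty X := ν.nonempty_of_neZero
    have h1 : ∫ _, (1 : ℝ) ∂ν ≤ ∫ x, g x ∂ν := by
      refine integral_mono (integrable_const _) (integrable_of_continuous ν hgc) fun x => ?_
      exact (one_le_inv₀ (potential_pos ν x)).2 (potential_le ν x)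
    simp only [integral_const, probReal_univ, smul_eq_mul, mul_one] at h1
    linarith
  -- energy of w
  have hE : bilX w w ≤ ∫ x, g x ∂ν := by
    have e1 : bilX w w = ∫ x, ∫ y, g x * (g y * Real.exp (-dist x y)) ∂ν ∂ν := by
      unfold bilX potential
      rw [hint]
      congr 1
      ext x
      rw [hint, integral_const_mul]
    have cont1 : Continuous (Function.uncurry fun x y : X => g x * (g y * Real.exp (-dist x y))) := by
      simp only [Function.uncurry_def]
      have := hgc.comp (continuous_fst (X := X) (Y := X))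
      have := hgc.comp (continuous_snd (X := X) (Y := X))
      fun_prop
    have cont2 : Continuous (fun p : X × X => g p.1 ^ 2 * Real.exp (-dist p.1 p.2)) := by
      fun_prop
    have cont3 : Continuous (fun p : X × X => g p.2 ^ 2 * Real.exp (-dist p.1 p.2)) := by
      fun_prop
    have i1 : Integrable (Function.uncurry fun x y : X => g x * (g y * Real.exp (-dist x y)))
        (ν.prod ν) := cont1.integrable_of_hasCompactSupport (HasCompactSupport.of_compactSpace _)
    have i2 : Integrable (fun p : X × X => g p.1 ^ 2 * Real.exp (-dist p.1 p.2)) (ν.prod ν) :=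
      cont2.integrable_of_hasCompactSupport (HasCompactSupport.of_compactSpace _)
    have i3 : Integrable (fun p : X × X => g p.2 ^ 2 * Real.exp (-dist p.1 p.2)) (ν.prod ν) :=
      cont3.integrable_of_hasCompactSupport (HasCompactSupport.of_compactSpace _)
    have e2 : ∫ x, ∫ y, g x * (g y * Real.exp (-dist x y)) ∂ν ∂ν =
        ∫ p, Function.uncurry (fun x y : X => g x * (g y * Real.exp (-dist x y))) p
          ∂(ν.prod ν) := (integral_prod _ i1).symm
    have e3 : ∫ p, g p.1 ^ 2 * Real.exp (-dist p.1 p.2) ∂(ν.prod ν) = ∫ x, g x ∂ν := by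
      rw [integral_prod _ i2]
      congr 1
      ext x
      simp only
      rw [integral_const_mul]
      have : ∫ y, Real.exp (-dist x y) ∂ν = potential ν x := rfl
      rw [this, hg, sq]
      have := (potential_pos ν x).ne'
      field_simp
    have e4 : ∫ p, g p.2 ^ 2 * Real.exp (-dist p.1 p.2) ∂(ν.prod ν) = ∫ x, g x ∂ν := by
      rw [← e3, ← integral_prod_swap]
      congr 1
      ext p
      simp [dist_comm]
    rw [e1, e2]
    calc ∫ p, Function.uncurry (fun x y : X => g x * (g y * Real.exp (-dist x y))) p ∂(ν.prod ν)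
        ≤ ∫ p, ((1 / 2) * (g p.1 ^ 2 * Real.exp (-dist p.1 p.2)) +
            (1 / 2) * (g p.2 ^ 2 * Real.exp (-dist p.1 p.2))) ∂(ν.prod ν) := by
          refine integral_mono i1 ((i2.const_mul _).add (i3.const_mul _)) fun p => ?_
          simp only [Function.uncurry_def]
          have := Real.exp_pos (-dist p.1 p.2)
          nlinarith [sq_nonneg (g p.1 - g p.2)]
      _ = ∫ x, g x ∂ν := by
          rw [integral_add (i2.const_mul _) (i3.const_mul _), integral_const_mul,
            integral_const_mul, e3, e4]
          ring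
  have h2 := h w hfin
  rw [hmass] at h2
  have h3 : c * (∫ x, g x ∂ν) ^ 2 ≤ ∫ x, g x ∂ν := h2.trans hE
  rw [le_inv_comm₀ hWpos hc]
  rw [le_inv_comm₀ hc hWpos]
  rw [inv_eq_one_div, le_div_iff₀ hc]
  nlinarith

/-- Jensen: `exp (∫ log u) ≤ ∫ u`. -/
lemma exp_integral_log_le (ν : Measure X) [IsProbabilityMeasure ν] {u : X → ℝ}
    (hu : Continuous u) (hpos : ∀ x, 0 < u x) :
    Real.exp (∫ x, Real.log (u x) ∂ν) ≤ ∫ x, u x ∂ν := by
  have hc : Continuous fun x => Real.log (u x) := hu.log fun x => (hpos x).ne'
  have := convexOn_exp.map_integral_le (μ := ν) (f := fun x => Real.log (u x))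
    Real.continuous_exp.continuousOn isClosed_univ (Filter.Eventually.of_forall fun x => mem_univ _)
    (integrable_of_continuous ν hc) (integrable_of_continuous ν (Real.continuous_exp.comp hc))
  refine this.trans (le_of_eq ?_)
  congr 1
  ext x
  exact Real.exp_log (hpos x)

/-- `D_q ≤ D_0`. -/
lemma diversity_le_integral_inv (ν : Measure X) [IsProbabilityMeasure ν] (q : ℝ≥0∞) :
    diversity q ν ≤ ∫ x, (potential ν x)⁻¹ ∂ν := by
  set f : X → ℝ := potential ν with hf
  have fc : Continuous f := continuous_potential ν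
  have fpos : ∀ x, 0 < f x := potential_pos ν
  have finvc : Continuous fun x => (f x)⁻¹ := fc.inv₀ fun x => (fpos x).ne'
  have hW1 : Real.exp (-∫ x, Real.log (f x) ∂ν) ≤ ∫ x, (f x)⁻¹ ∂ν := by
    have := exp_integral_log_le ν finvc fun x => inv_pos.2 (fpos x)
    simpa only [Real.log_inv, integral_neg] using this
  unfold diversity
  split_ifs with h1 h2
  · exact hW1
  · -- q = ∞
    have hne : (ν.support).Nonempty := Measure.nonempty_support (NeZero.ne ν)
    have hbdd : BddAbove (range fun x : ν.support => f x) :=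
      ⟨1, by rintro _ ⟨x, rfl⟩; exact potential_le ν x⟩
    obtain ⟨x0, hx0⟩ := hne
    have hMpos : 0 < ⨆ x : ν.support, f x :=
      (fpos x0).trans_le (le_ciSup hbdd (⟨x0, hx0⟩ : ν.support))
    have hle : ∫ _, (⨆ x : ν.support, f x)⁻¹ ∂ν ≤ ∫ x, (f x)⁻¹ ∂ν := by
      refine integral_mono_ae (integrable_const _) (integrable_of_continuous ν finvc) ?_
      filter_upwards [Measure.support_mem_ae (μ := ν)] with x hx
      exact inv_anti₀ (fpos x) (le_ciSup hbdd (⟨x, hx⟩ : ν.support))
    simpa using hle
  · set r := q.toReal with hr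
    have hr0 : 0 ≤ r := ENNReal.toReal_nonneg
    have hr1 : r ≠ 1 := by
      intro h
      apply h1
      rw [hr, ENNReal.toReal_eq_one_iff] at h
      exact h
    rcases lt_or_gt_of_ne hr1 with hlt | hgt
    · -- r < 1
      have hs : 0 < 1 - r := by linarith
      have hjen := (Real.concaveOn_rpow (p := 1 - r) hs.le (by linarith)).le_map_integral (μ := ν)
        (f := fun x => (f x)⁻¹) (Real.continuous_rpow_const hs.le).continuousOn isClosed_Ici
        (Filter.Eventually.of_forall fun x => (inv_pos.2 (fpos x)).le)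
        (integrable_of_continuous ν finvc)
        (integrable_of_continuous ν ((Real.continuous_rpow_const hs.le).comp finvc))
      have e : ∫ x, f x ^ (r - 1) ∂ν = ∫ x, ((f x)⁻¹) ^ (1 - r) ∂ν := by
        congr 1
        ext x
        rw [Real.inv_rpow (fpos x).le, ← Real.rpow_neg (fpos x).le]
        congr 1
        ring
      rw [e]
      have hpos : 0 ≤ ∫ x, ((f x)⁻¹) ^ (1 - r) ∂ν :=
        integral_nonneg fun x => Real.rpow_nonneg (inv_pos.2 (fpos x)).le _
      calc (∫ x, ((f x)⁻¹) ^ (1 - r) ∂ν) ^ (1 / (1 - r))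
          ≤ ((∫ x, (f x)⁻¹ ∂ν) ^ (1 - r)) ^ (1 / (1 - r)) :=
            Real.rpow_le_rpow hpos hjen (by positivity)
        _ = ∫ x, (f x)⁻¹ ∂ν := by
            rw [← Real.rpow_mul (integral_nonneg fun x => (inv_pos.2 (fpos x)).le),
              mul_one_div_cancel hs.ne', Real.rpow_one]
    · -- r > 1
      have hs : 0 < r - 1 := by linarith
      have hc : Continuous fun x => f x ^ (r - 1) := fc.rpow_const fun x => Or.inl (fpos x).ne'
      have hjen := exp_integral_log_le ν hc fun x => Real.rpow_pos_of_pos (fpos x) _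
      have e : ∫ x, Real.log (f x ^ (r - 1)) ∂ν = (r - 1) * ∫ x, Real.log (f x) ∂ν := by
        rw [← integral_const_mul]
        congr 1
        ext x
        rw [Real.log_rpow (fpos x)]
      rw [e] at hjen
      have hI : 0 < ∫ x, f x ^ (r - 1) ∂ν := (Real.exp_pos _).trans_le hjen
      refine le_trans ?_ hW1
      have hexp : 1 / (1 - r) = -(1 / (r - 1)) := by
        rw [← neg_sub r 1, div_neg]
      rw [hexp, Real.rpow_neg hI.le, Real.exp_neg]
      refine inv_anti₀ (Real.exp_pos _) ?_
      calc Real.exp (∫ x, Real.log (f x) ∂ν)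
          = Real.exp ((r - 1) * ∫ x, Real.log (f x) ∂ν) ^ (1 / (r - 1)) := by
            rw [← Real.exp_mul]
            congr 1
            field_simp
        _ ≤ _ := Real.rpow_le_rpow (Real.exp_pos _).le hjen (by positivity)

/-- value of the diversities of a measure whose potential is constant on its support. -/
lemma diversity_eq_of_const (μ : Measure X) [IsProbabilityMeasure μ] {c : ℝ} (hc : 0 < c)
    (h : ∀ x ∈ μ.support, potential μ x = c) (q : ℝ≥0∞) : diversity q μ = c⁻¹ := by
  have hae : ∀ᵐ x ∂μ, potential μ x = c := by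
    filter_upwards [Measure.support_mem_ae (μ := μ)] with x hx
    exact h x hx
  unfold diversity
  split_ifs with h1 h2
  · have : ∫ x, Real.log (potential μ x) ∂μ = Real.log c := by
      rw [integral_congr_ae (g := fun _ => Real.log c)]
      · simp
      · filter_upwards [hae] with x hx
        rw [hx]
    rw [this, Real.exp_neg, Real.exp_log hc]
  · have hne : (μ.support).Nonempty := Measure.nonempty_support (NeZero.ne μ)
    have : Nonempty μ.support := hne.to_subtype
    have : (⨆ x : μ.support, potential μ (x : X)) = c := by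
      rw [show (fun x : μ.support => potential μ (x : X)) = fun _ => c from
        funext fun x => h x x.2]
      exact ciSup_const
    rw [this]
  · have hr1 : q.toReal ≠ 1 := by
      intro h'
      rw [ENNReal.toReal_eq_one_iff] at h'
      exact h1 h'
    have : ∫ x, potential μ x ^ (q.toReal - 1) ∂μ = c ^ (q.toReal - 1) := by
      rw [integral_congr_ae (g := fun _ => c ^ (q.toReal - 1))]
      · simp
      · filter_upwards [hae] with x hx
        rw [hx]
    rw [this, ← Real.rpow_mul hc.le]
    have h3 : (q.toReal - 1) * (1 / (1 - q.toReal)) = -1 := by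
      have : (1 - q.toReal) ≠ 0 := sub_ne_zero.2 (Ne.symm hr1)
      field_simp
      ring
    rw [h3, Real.rpow_neg_one]

lemma bilX_add_left (μ₁ μ₂ ν : Measure X) [IsFiniteMeasure μ₁] [IsFiniteMeasure μ₂]
    [IsFiniteMeasure ν] : bilX (μ₁ + μ₂) ν = bilX μ₁ ν + bilX μ₂ ν := by
  unfold bilX
  exact integral_add_measure (integrable_of_continuous _ (continuous_potential ν))
    (integrable_of_continuous _ (continuous_potential ν))

lemma bilX_smul_left (r : ℝ≥0∞) (μ ν : Measure X) : bilX (r • μ) ν = r.toReal * bilX μ ν := by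
  unfold bilX
  rw [integral_smul_measure, smul_eq_mul]

lemma bilX_smul_right (r : ℝ≥0∞) (μ ν : Measure X) :
    bilX μ (r • ν) = r.toReal * bilX μ ν := by
  unfold bilX potential
  simp_rw [integral_smul_measure, smul_eq_mul]
  rw [integral_const_mul]

/-- Abstract optimality criterion. -/
theorem isMaximising_of_kkt (μ : Measure X) [IsProbabilityMeasure μ] {c : ℝ} (hc : 0 < c)
    (h1 : ∀ x, c ≤ potential μ x) (h2 : ∀ x ∈ μ.support, potential μ x = c)
    (hPD : ∀ ν₁ ν₂ : Measure X, IsFiniteMeasure ν₁ → IsFiniteMeasure ν₂ →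
      0 ≤ bilX ν₁ ν₁ - bilX ν₁ ν₂ - bilX ν₂ ν₁ + bilX ν₂ ν₂)
    (hSPD : ∀ ν₁ ν₂ : Measure X, IsFiniteMeasure ν₁ → IsFiniteMeasure ν₂ →
      bilX ν₁ ν₁ - bilX ν₁ ν₂ - bilX ν₂ ν₁ + bilX ν₂ ν₂ = 0 → ν₁ = ν₂) :
    IsMaximising μ ∧ (∀ q, diversity q μ = c⁻¹) ∧ ∀ ν : Measure X, IsMaximising ν → ν = μ := by
  have hμμ : bilX μ μ = c := by
    unfold bilX
    rw [integral_congr_ae (g := fun _ => c)]
    · simp
    · filter_upwards [Measure.support_mem_ae (μ := μ)] with x hx
      exact h2 x hx
  have hlow : ∀ w : Measure X, IsFiniteMeasure w → c * w.real univ ≤ bilX w μ := by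
    intro w hw
    unfold bilX
    have : ∫ _, c ∂w ≤ ∫ x, potential μ x ∂w :=
      integral_mono (integrable_const _) (integrable_of_continuous w (continuous_potential μ)) h1
    rw [integral_const, smul_eq_mul] at this
    linarith
  have hE : ∀ w : Measure X, IsFiniteMeasure w → c * (w.real univ) ^ 2 ≤ bilX w w := by
    intro w hw
    have hfin : IsFiniteMeasure ((ENNReal.ofReal (w.real univ)) • μ) :=
      Measure.smul_finite μ ENNReal.ofReal_ne_top
    have h := hPD w ((ENNReal.ofReal (w.real univ)) • μ) hw hfin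
    rw [bilX_smul_left, bilX_smul_right, bilX_smul_right, bilX_smul_left, hμμ, bilX_comm μ w,
      ENNReal.toReal_ofReal measureReal_nonneg] at h
    have h3 := hlow w hw
    have h4 : 0 ≤ w.real univ := measureReal_nonneg
    nlinarith
  have hdiv := diversity_eq_of_const μ hc h2
  refine ⟨⟨inferInstance, ?_⟩, hdiv, ?_⟩
  · intro ν hν q
    rw [hdiv q]
    exact (diversity_le_integral_inv ν q).trans (integral_inv_potential_le hc hE ν)
  · rintro ν ⟨hν, hmax⟩
    have h5 : diversity 2 μ ≤ diversity 2 ν := hmax μ inferInstance 2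
    rw [hdiv 2] at h5
    have h6 : diversity 2 ν = (bilX ν ν)⁻¹ := by
      unfold diversity bilX
      rw [if_neg (by norm_num), if_neg (by norm_num)]
      rw [show ((2 : ℝ≥0∞).toReal - 1) = 1 by norm_num,
        show (1 / (1 - (2 : ℝ≥0∞).toReal)) = -1 by norm_num]
      simp only [Real.rpow_one]
      rw [Real.rpow_neg_one]
    rw [h6] at h5
    have h7 : 0 < bilX ν ν := by
      have := hE ν inferInstance
      simp only [probReal_univ] at this
      linarith
    have h8 : bilX ν ν ≤ c := (inv_le_inv₀ hc h7).1 h5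
    have h9 := hPD ν μ inferInstance inferInstance
    have h10 := hlow ν inferInstance
    rw [probReal_univ, mul_one] at h10
    have h11 := bilX_comm μ ν
    apply hSPD ν μ inferInstance inferInstance
    linarith

end general

end Pool.Agent.Helper67.MaxMeas
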