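import Pool.Agent.Helper67.MaxMeas.Main

open MeasureTheory Set Metric
open scoped ENNReal Topology
open Pool.Agent.Results.MP_91ee6f_gt

namespace Pool.Agent.Helper67.MaxMeas

/-! ### The critical radius -/

lemma sign_lift {f f' : ℝ → ℝ} (hf : ∀ x, HasDerivAt f (f' x) x) (h0 : f 0 = 0) {p : ℝ}
    (hp : 0 < p) (hneg : ∀ x, 0 < x → x < p → f' x < 0) (hpos : ∀ x, p < x → 0 < f' x)
    {c : ℝ} (hc : 0 < c) (hfc : 0 < f c) :
    ∃ q, 0 < q ∧ f q = 0 ∧ (∀ x, 0 < x → x < q → f x < 0) ∧ ∀ x, q < x → 0 < f x := by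
  have hcont : Continuous f := continuous_iff_continuousAt.2 fun x => (hf x).continuousAt
  have anti : StrictAntiOn f (Icc 0 p) := by
    refine strictAntiOn_of_deriv_neg (convex_Icc 0 p) hcont.continuousOn fun x hx => ?_
    rw [interior_Icc] at hx
    rw [(hf x).deriv]
    exact hneg x hx.1 hx.2
  have mono : StrictMonoOn f (Ici p) := by
    refine strictMonoOn_of_deriv_pos (convex_Ici p) hcont.continuousOn fun x hx => ?_
    rw [interior_Ici] at hx
    rw [(hf x).deriv]
    exact hpos x hx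
  have hfneg : ∀ x, 0 < x → x ≤ p → f x < 0 := by
    intro x hx hxp
    have := anti ⟨le_rfl, hp.le⟩ ⟨hx.le, hxp⟩ hx
    rwa [h0] at this
  have hpc : p < c := by
    by_contra h
    push Not at h
    exact absurd hfc (not_lt.2 (hfneg c hc h).le)
  obtain ⟨q, hq, hq0⟩ := intermediate_value_Ioo hpc.le hcont.continuousOn
    ⟨hfneg p hp le_rfl, hfc⟩
  refine ⟨q, hp.trans hq.1, hq0, ?_, ?_⟩
  · intro x hx hxq
    rcases le_total x p with h | h
    · exact hfneg x hx h
    · have := mono (mem_Ici.2 h) (mem_Ici.2 hq.1.le) hxq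
      rwa [hq0] at this
  · intro x hx
    have := mono (mem_Ici.2 hq.1.le) (mem_Ici.2 (hq.1.le.trans hx.le)) hx
    rwa [hq0] at this

lemma exp_three_gt : (20 : ℝ) < Real.exp 3 := by
  have h := Real.exp_one_gt_d9
  have : Real.exp 3 = Real.exp 1 ^ 3 := by rw [← Real.exp_nat_mul]; norm_num
  rw [this]
  have h2 : (2.7182818283 : ℝ) ^ 3 < Real.exp 1 ^ 3 := by gcongr
  refine lt_trans ?_ h2
  norm_num

lemma exp_two_lt : Real.exp 2 < 8 := by
  have h := Real.exp_one_lt_d9
  have : Real.exp 2 = Real.exp 1 ^ 2 := by rw [← Real.exp_nat_mul]; norm_num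
  rw [this]
  have h2 : Real.exp 1 ^ 2 < (2.7182818286 : ℝ) ^ 2 := by gcongr
  refine lt_trans h2 ?_
  norm_num

/-- `h(R) = e^{2R} - 1 - 2R - 2R² e^R` -/
noncomputable def hh (x : ℝ) : ℝ := Real.exp (2 * x) - 1 - 2 * x - 2 * x ^ 2 * Real.exp x

lemma exists_Rc : ∃ Rc : ℝ, 2 < Rc ∧ Rc < 3 ∧ hh Rc = 0 ∧ (∀ x, 0 < x → x < Rc → hh x < 0) ∧
    ∀ x, Rc < x → 0 < hh x := by
  have e3 := exp_three_gt
  have dexp2 : ∀ x : ℝ, HasDerivAt (fun x : ℝ => Real.exp (2 * x)) (2 * Real.exp (2 * x)) x := by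
    intro x
    exact ((hasDerivAt_id' x).const_mul 2).exp.congr_deriv (by ring)
  -- level 1
  have m1 : ∀ x : ℝ, HasDerivAt (fun x : ℝ => 2 * Real.exp x - 4 - 2 * x)
      (2 * Real.exp x - 2) x := by
    intro x
    exact (((Real.hasDerivAt_exp x).const_mul 2).sub_const 4).fun_sub
      ((hasDerivAt_id' x).const_mul 2) |>.congr_deriv (by ring)
  have l1 : ∃ p, 0 < p ∧ (∀ x, 0 < x → x < p → 2 * Real.exp x - 4 - 2 * x < 0) ∧
      ∀ x, p < x → 0 < 2 * Real.exp x - 4 - 2 * x := by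
    have hcont : Continuous fun x : ℝ => 2 * Real.exp x - 4 - 2 * x := by fun_prop
    have mono : StrictMonoOn (fun x : ℝ => 2 * Real.exp x - 4 - 2 * x) (Ici 0) := by
      refine strictMonoOn_of_deriv_pos (convex_Ici 0) hcont.continuousOn fun x hx => ?_
      rw [interior_Ici] at hx
      rw [(m1 x).deriv]
      have := Real.one_lt_exp_iff.2 hx
      linarith
    obtain ⟨q, hq, hq0⟩ := intermediate_value_Ioo (by norm_num : (0 : ℝ) ≤ 3) hcont.continuousOn
      (show (0 : ℝ) ∈ Ioo _ _ from ⟨by simp; norm_num, by linarith⟩)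
    simp only at hq0
    refine ⟨q, hq.1, ?_, ?_⟩
    · intro x hx hxq
      have := mono (mem_Ici.2 hx.le) (mem_Ici.2 hq.1.le) hxq
      simp only [hq0] at this
      exact this
    · intro x hx
      have := mono (mem_Ici.2 hq.1.le) (mem_Ici.2 (hq.1.le.trans hx.le)) hx
      simp only [hq0] at this
      exact this
  obtain ⟨p1, hp1, hn1, hpos1⟩ := l1
  -- level 2: m(x) = 2 e^x - 2 - 4x - x²
  have m2 : ∀ x : ℝ, HasDerivAt (fun x : ℝ => 2 * Real.exp x - 2 - 4 * x - x ^ 2)
      (2 * Real.exp x - 4 - 2 * x) x := by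
    intro x
    exact ((((Real.hasDerivAt_exp x).const_mul 2).sub_const 2).fun_sub
      ((hasDerivAt_id' x).const_mul 4)).fun_sub (hasDerivAt_pow 2 x) |>.congr_deriv
      (by norm_num)
  obtain ⟨p2, hp2, -, hn2, hpos2⟩ := sign_lift m2 (by simp) hp1 hn1 hpos1 (c := 3) (by norm_num)
    (by nlinarith)
  -- level 3: f'
  have dxe : ∀ x : ℝ, HasDerivAt (fun x : ℝ => x * Real.exp x) (Real.exp x + x * Real.exp x) x := by
    intro x
    exact ((hasDerivAt_id' x).fun_mul (Real.hasDerivAt_exp x)).congr_deriv (by ring)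
  have dx2e : ∀ x : ℝ, HasDerivAt (fun x : ℝ => x ^ 2 * Real.exp x)
      (2 * x * Real.exp x + x ^ 2 * Real.exp x) x := by
    intro x
    exact ((hasDerivAt_pow 2 x).fun_mul (Real.hasDerivAt_exp x)).congr_deriv (by norm_num)
  have m3 : ∀ x : ℝ, HasDerivAt
      (fun x : ℝ => 2 * Real.exp (2 * x) - 2 - 4 * (x * Real.exp x) - 2 * (x ^ 2 * Real.exp x))
      (2 * Real.exp x * (2 * Real.exp x - 2 - 4 * x - x ^ 2)) x := by
    intro x
    refine (((((dexp2 x).const_mul 2).sub_const 2).fun_sub ((dxe x).const_mul 4)).fun_sub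
      ((dx2e x).const_mul 2)).congr_deriv ?_
    rw [two_mul x, Real.exp_add]
    ring
  have e6 : Real.exp (2 * 3) = Real.exp 3 ^ 2 := by rw [two_mul, Real.exp_add, sq]
  obtain ⟨p3, hp3, -, hn3, hpos3⟩ := sign_lift m3 (by simp) hp2
    (fun x hx hxp => mul_neg_of_pos_of_neg (by positivity) (hn2 x hx hxp))
    (fun x hx => mul_pos (by positivity) (hpos2 x hx)) (c := 3) (by norm_num)
    (by rw [e6]; nlinarith)
  -- level 4: f
  have m4 : ∀ x : ℝ, HasDerivAt hh
      (2 * Real.exp (2 * x) - 2 - 4 * (x * Real.exp x) - 2 * (x ^ 2 * Real.exp x)) x := by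
    intro x
    have h := (((dexp2 x).sub_const 1).fun_sub ((hasDerivAt_id' x).const_mul 2)).fun_sub
      ((dx2e x).const_mul 2)
    have e : (fun x : ℝ => Real.exp (2 * x) - 1 - 2 * x - 2 * (x ^ 2 * Real.exp x)) = hh := by
      ext x; unfold hh; ring
    rw [e] at h
    exact h.congr_deriv (by ring)
  have h3 : 0 < hh 3 := by
    unfold hh
    rw [e6]; nlinarith
  have h2 : hh 2 < 0 := by
    unfold hh
    have e2 := exp_two_lt
    have e4 : Real.exp (2 * 2) = Real.exp 2 ^ 2 := by rw [two_mul, Real.exp_add, sq]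
    have p2 := Real.exp_pos 2
    rw [e4]; nlinarith
  obtain ⟨Rc, hRc, hz, hn, hpos⟩ := sign_lift m4 (by unfold hh; simp) hp3 hn3 hpos3 (c := 3)
    (by norm_num) h3
  refine ⟨Rc, ?_, ?_, hz, hn, hpos⟩
  · by_contra h
    push Not at h
    rcases h.eq_or_lt with h | h
    · rw [h] at hz; linarith
    · linarith [hpos 2 h]
  · by_contra h
    push Not at h
    rcases h.eq_or_lt with h | h
    · rw [← h] at hz; linarith
    · linarith [hn 3 (by norm_num) h]

/-! ### Small balls -/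

lemma potential_unif_R {R : ℝ} (hR : 0 < R) (x : E3) (hx : 0 < ‖x‖) (hxR : ‖x‖ ≤ R) :
    potential (sphereUnif R) x = Real.exp (-R) / (‖x‖ * R) *
      ((1 + R) * Real.sinh ‖x‖ - ‖x‖ * Real.cosh ‖x‖) := by
  rw [potential_sphereUnif x hx hR, abs_sub_comm, abs_of_nonneg (by linarith : 0 ≤ R - ‖x‖)]
  unfold gg
  rw [Real.sinh_eq, Real.cosh_eq]
  have e1 : Real.exp (-(R - ‖x‖)) = Real.exp (-R) * Real.exp ‖x‖ := by
    rw [← Real.exp_add]; ring_nf
  have e2 : Real.exp (-(‖x‖ + R)) = Real.exp (-R) * Real.exp (-‖x‖) := by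
    rw [← Real.exp_add]; ring_nf
  rw [e1, e2]
  field_simp
  ring

/-- the constant in the one-sphere regime -/
lemma const_R {R : ℝ} (hR : 0 < R) :
    Real.exp (-R) / (R * R) * ((1 + R) * Real.sinh R - R * Real.cosh R) =
      (1 - (1 + 2 * R) * Real.exp (-(2 * R))) / (2 * R ^ 2) := by
  rw [Real.sinh_eq, Real.cosh_eq]
  have e1 : Real.exp (-(2 * R)) = Real.exp (-R) ^ 2 := by
    rw [sq, ← Real.exp_add]; ring_nf
  have e2 : Real.exp R = (Real.exp (-R))⁻¹ := by rw [← Real.exp_neg, neg_neg]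
  rw [e1, e2]
  have := Real.exp_pos (-R)
  field_simp
  ring

lemma sinh_cosh_pos {R : ℝ} (hR : 0 < R) : 0 < (1 + R) * Real.sinh R - R * Real.cosh R := by
  have h : (1 + R) * Real.sinh R - R * Real.cosh R = Real.sinh R - R * Real.exp (-R) := by
    rw [Real.sinh_eq, Real.cosh_eq]; ring
  rw [h]
  have h1 := Real.self_le_sinh_iff.2 hR.le
  have h2 : Real.exp (-R) < 1 := by rw [Real.exp_lt_one_iff]; linarith
  nlinarith

theorem small_ball {R : ℝ} (hR : 0 < R)
    (h : Real.exp (2 * R) ≤ 1 + 2 * R + 2 * R ^ 2 * Real.exp R) :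
    ∃ μ : Measure (closedBall (0 : E3) R), μ.map Subtype.val = sphereUnif R ∧ IsMaximising μ ∧
      (∀ q, diversity q μ = 2 * R ^ 2 / (1 - (1 + 2 * R) * Real.exp (-(2 * R)))) ∧
      ∀ ν : Measure (closedBall (0 : E3) R), IsMaximising ν → ν = μ := by
  set c := Real.exp (-R) / (R * R) * ((1 + R) * Real.sinh R - R * Real.cosh R) with hc
  have hcpos : 0 < c := by
    have := sinh_cosh_pos hR
    positivity
  have hcond : (1 + R) * Real.sinh R - R * Real.cosh R ≤ R ^ 2 := by
    have h1 : (1 + R) * Real.sinh R - R * Real.cosh R =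
        (Real.exp (2 * R) - 1 - 2 * R) / (2 * Real.exp R) := by
      rw [Real.sinh_eq, Real.cosh_eq, Real.exp_neg, two_mul R, Real.exp_add]
      have := Real.exp_pos R
      field_simp
      ring
    rw [h1, div_le_iff₀ (by positivity)]
    linarith
  have hge0 : ∀ x : E3, 0 < ‖x‖ → ‖x‖ ≤ R → c ≤ potential (sphereUnif R) x := by
    intro x hx hxR
    rw [potential_unif_R hR x hx hxR, hc]
    have hs := small_regime hR hcond (r := ‖x‖) ⟨hx.le, hxR⟩
    have e1 : Real.exp (-R) / (R * R) * ((1 + R) * Real.sinh R - R * Real.cosh R) =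
        Real.exp (-R) / (‖x‖ * R * R) * (‖x‖ * ((1 + R) * Real.sinh R - R * Real.cosh R)) := by
      field_simp
    have e2 : Real.exp (-R) / (‖x‖ * R) * ((1 + R) * Real.sinh ‖x‖ - ‖x‖ * Real.cosh ‖x‖) =
        Real.exp (-R) / (‖x‖ * R * R) *
          (R * ((1 + R) * Real.sinh ‖x‖ - ‖x‖ * Real.cosh ‖x‖)) := by
      field_simp
    rw [e1, e2]
    exact mul_le_mul_of_nonneg_left hs (by positivity)
  have q1 : sphereUnif R (closedBall (0 : E3) R)ᶜ = 0 := by
    have hsup := support_sphereUnif hR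
    have := Measure.measure_compl_support (μ := sphereUnif R)
    rw [hsup] at this
    exact measure_mono_null (compl_subset_compl.2 sphere_subset_closedBall) this
  have q2 : ∀ x : E3, ‖x‖ ≤ R → c ≤ potential (sphereUnif R) x := by
    intro x hx
    rcases (norm_nonneg x).eq_or_lt with h0 | h0
    · have hx0 : x = 0 := norm_eq_zero.1 h0.symm
      subst hx0
      refine ge_of_tendsto (tendsto_smul_zero (sphereUnif R) (EuclideanSpace.single 0 1)) ?_
      filter_upwards [Ioc_mem_nhdsGT hR] with t ht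
      have hn := norm_smul_single ht.1
      exact hge0 _ (by rw [hn]; exact ht.1) (by rw [hn]; exact ht.2)
    · exact hge0 x h0 hx
  have q3 : ∀ x ∈ (sphereUnif R).support, potential (sphereUnif R) x = c := by
    intro x hx
    rw [support_sphereUnif hR, mem_sphere_zero_iff_norm] at hx
    rw [potential_unif_R hR x (by rw [hx]; exact hR) hx.le, hx]
  obtain ⟨μ, h1, h2, h3, h4⟩ := criterion' (R := R) (sphereUnif R) q1 hcpos q2 q3
  refine ⟨μ, h1, h2, ?_, h4⟩
  intro q
  rw [h3 q, hc, const_R hR, inv_div]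

/-! ### Large balls -/

lemma wMeasure_univ {b R : ℝ} (hb : 0 ≤ b) (ha : 0 ≤ aIn b R) (hR : 0 ≤ R) (hA : 0 ≤ aOut b R) :
    wMeasure b R univ = ENNReal.ofReal (b ^ 3 / 6 + b * aIn b R + R * aOut b R) := by
  have hpi := Real.pi_pos
  unfold wMeasure
  rw [Measure.add_apply, Measure.add_apply, Measure.smul_apply, Measure.smul_apply,
    Measure.smul_apply, measure_univ (μ := sphereUnif b), measure_univ (μ := sphereUnif R),
    Measure.restrict_apply_univ,
    EuclideanSpace.volume_closedBall_fin_three]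
  simp only [smul_eq_mul, mul_one]
  rw [← ENNReal.ofReal_pow hb, ← ENNReal.ofReal_mul (by positivity),
    ← ENNReal.ofReal_mul (by positivity), ← ENNReal.ofReal_add (by positivity) (by positivity),
    ← ENNReal.ofReal_add (by positivity) (by positivity)]
  congr 1
  field_simp
  ring

theorem large_ball {b R : ℝ} (hb : 0 < b) (hbR : b < R) (hgap : GapEq R b) :
    ∃ μ : Measure (closedBall (0 : E3) R),
      μ.map Subtype.val = (wMeasure b R univ)⁻¹ • wMeasure b R ∧
      (μ.map Subtype.val).support = closedBall 0 b ∪ sphere 0 R ∧ IsMaximising μ ∧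
      (∀ q, diversity q μ = b ^ 3 / 6 + b * aIn b R + R * aOut b R) ∧
      ∀ ν : Measure (closedBall (0 : E3) R), IsMaximising ν → ν = μ := by
  have hR : 0 < R := by linarith
  have hV := (gapEq_iff hbR).1 hgap
  have ha := aIn_pos hb.le hbR hV
  have hA := aOut_pos hb.le hbR
  set D := b ^ 3 / 6 + b * aIn b R + R * aOut b R with hD
  have hDpos : 0 < D := by positivity
  have hmass : wMeasure b R univ = ENNReal.ofReal D := wMeasure_univ hb.le ha.le hR.le hA.le
  have hne0 : wMeasure b R univ ≠ 0 := by rw [hmass]; exact (ENNReal.ofReal_pos.2 hDpos).ne'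
  have hnetop : wMeasure b R univ ≠ ∞ := measure_ne_top _ _
  have hprob : IsProbabilityMeasure ((wMeasure b R univ)⁻¹ • wMeasure b R) := by
    constructor
    rw [Measure.smul_apply, smul_eq_mul]
    exact ENNReal.inv_mul_cancel hne0 hnetop
  have hsupp : ((wMeasure b R univ)⁻¹ • wMeasure b R).support = closedBall 0 b ∪ sphere 0 R := by
    rw [support_smul _ (ENNReal.inv_ne_zero.2 hnetop), support_wMeasure hb hbR ha]
  have hpot : ∀ x : E3, potential ((wMeasure b R univ)⁻¹ • wMeasure b R) x =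
      D⁻¹ * potential (wMeasure b R) x := by
    intro x
    unfold potential
    rw [integral_smul_measure, ENNReal.toReal_inv, hmass, ENNReal.toReal_ofReal hDpos.le,
      smul_eq_mul]
  have q1 : ((wMeasure b R univ)⁻¹ • wMeasure b R) (closedBall (0 : E3) R)ᶜ = 0 := by
    have := Measure.measure_compl_support (μ := (wMeasure b R univ)⁻¹ • wMeasure b R)
    rw [hsupp] at this
    refine measure_mono_null (compl_subset_compl.2 ?_) this
    exact union_subset (closedBall_subset_closedBall hbR.le) sphere_subset_closedBall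
  have q2 : ∀ x : E3, ‖x‖ ≤ R →
      D⁻¹ ≤ potential ((wMeasure b R univ)⁻¹ • wMeasure b R) x := by
    intro x hx
    rw [hpot]
    have := kkt_ge hb.le hbR ha.le hV x hx
    have h5 : 0 < D⁻¹ := inv_pos.2 hDpos
    nlinarith
  have q3 : ∀ x ∈ ((wMeasure b R univ)⁻¹ • wMeasure b R).support,
      potential ((wMeasure b R univ)⁻¹ • wMeasure b R) x = D⁻¹ := by
    intro x hx
    rw [hsupp] at hx
    rw [hpot, kkt_eq hb hbR ha.le hV x ?_, mul_one]
    rcases hx with hx | hx
    · exact Or.inl (by simpa using hx)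
    · exact Or.inr (by simpa using hx)
  obtain ⟨μ, h1, h2, h3, h4⟩ := criterion' (R := R) ((wMeasure b R univ)⁻¹ • wMeasure b R) q1
    (inv_pos.2 hDpos) q2 q3
  refine ⟨μ, h1, ?_, h2, ?_, h4⟩
  · rw [h1, hsupp]
  · intro q
    rw [h3 q, inv_inv]

lemma radius_unique {b b' R : ℝ} (hb' : 0 < b') (hbR' : b' < R)
    (h : closedBall (0 : E3) b ∪ sphere 0 R = closedBall 0 b' ∪ sphere 0 R) : b' ≤ b := by
  by_contra hlt
  push Not at hlt
  have hn := norm_smul_single hb'
  have hmem : b' • (EuclideanSpace.single 0 1 : E3) ∈ closedBall (0 : E3) b' ∪ sphere 0 R :=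
    Or.inl (by rw [mem_closedBall_zero_iff, hn])
  rw [← h] at hmem
  rcases hmem with h1 | h1
  · rw [mem_closedBall_zero_iff, hn] at h1
    linarith
  · rw [mem_sphere_zero_iff_norm, hn] at h1
    linarith

theorem ball_three :
    ∃ Rc : ℝ, 2 < Rc ∧ Rc < 3 ∧
      Real.exp (2 * Rc) = 1 + 2 * Rc + 2 * Rc ^ 2 * Real.exp Rc ∧
      ∀ R : ℝ, 0 < R → ∃ μ : Measure (closedBall (0 : E3) R),
        (∀ ν : Measure (closedBall (0 : E3) R), IsMaximising ν ↔ ν = μ) ∧
        (R ≤ Rc → OneSphereForm R μ) ∧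
        (Rc < R → ¬ IsFiniteUnionOfSpheres (inSpace μ).support ∧
          ∃ b : ℝ, 0 < b ∧ b < R ∧ GapEq R b ∧
            (∀ b' : ℝ, 0 < b' → b' < R → GapEq R b' → b' = b) ∧ BallSphereForm R b μ) := by
  obtain ⟨Rc, h2, h3, hz, hn, hpos⟩ := exists_Rc
  refine ⟨Rc, h2, h3, ?_, ?_⟩
  · unfold hh at hz
    linarith
  intro R hR
  rcases le_or_gt R Rc with hle | hgt
  · have hcond : Real.exp (2 * R) ≤ 1 + 2 * R + 2 * R ^ 2 * Real.exp R := by
      have : hh R ≤ 0 := by
        rcases hle.eq_or_lt with h | h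
        · rw [h, hz]
        · exact (hn R hR h).le
      unfold hh at this
      linarith
    obtain ⟨μ, m1, m2, m3, m4⟩ := small_ball hR hcond
    refine ⟨μ, fun ν => ⟨m4 ν, fun h => h ▸ m2⟩, fun _ => ⟨m1, ?_, m3⟩,
      fun h => absurd h (not_lt.2 hle)⟩
    unfold inSpace
    rw [m1, support_sphereUnif hR]
  · have hcond : 1 + 2 * R + 2 * R ^ 2 * Real.exp R < Real.exp (2 * R) := by
      have : 0 < hh R := hpos R hgt
      unfold hh at this
      linarith
    obtain ⟨b, hb, hbR, hgap⟩ := exists_gap hR hcond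
    obtain ⟨μ, m1, m2, m3, m4, m5⟩ := large_ball hb hbR hgap
    refine ⟨μ, fun ν => ⟨m5 ν, fun h => h ▸ m3⟩, fun h => absurd hgt (not_lt.2 h),
      fun _ => ⟨?_, b, hb, hbR, hgap, ?_, aIn_pos hb.le hbR ((gapEq_iff hbR).1 hgap),
        aOut_pos hb.le hbR, m1, m2, m4⟩⟩
    · unfold IsFiniteUnionOfSpheres inSpace
      rw [m2]
      exact not_finite_union_spheres hb
    · intro b' hb' hbR' hgap'
      obtain ⟨μ', -, m2', m3', -, -⟩ := large_ball hb' hbR' hgap'
      have := m5 μ' m3'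
      rw [this, m2] at m2'
      exact le_antisymm (radius_unique hb' hbR' m2')
        (radius_unique hb hbR m2'.symm)

end Pool.Agent.Helper67.MaxMeas
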