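import Pool.Agent.Helper67.MaxMeas.Sphere

open MeasureTheory Set Metric
open scoped ENNReal
open Pool.Agent.Results.MP_91ee6f_gt

namespace Pool.Agent.Helper67.MaxMeas

/-- `g(u) = (1+u) e^{-u}` -/
noncomputable def gg (u : ℝ) : ℝ := (1 + u) * Real.exp (-u)

lemma hasDerivAt_gg (u : ℝ) : HasDerivAt gg (-u * Real.exp (-u)) u := by
  unfold gg
  have h1 : HasDerivAt (fun u : ℝ => 1 + u) 1 u := by
    simpa using (hasDerivAt_id u).const_add (1 : ℝ)
  have h2 : HasDerivAt (fun u : ℝ => Real.exp (-u)) (Real.exp (-u) * (-1)) u :=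
    (hasDerivAt_neg u).exp
  exact (h1.fun_mul h2).congr_deriv (by ring)

lemma continuous_gg : Continuous gg := by unfold gg; fun_prop

/-- one-dimensional integral behind the potential of a sphere -/
lemma integral_exp_sqrt {r s : ℝ} (hr : 0 < r) (hs : 0 < s) :
    ∫ u in (-1 : ℝ)..1, Real.exp (-Real.sqrt (r ^ 2 + s ^ 2 - 2 * r * s * u)) =
      (1 / (r * s)) * (gg |r - s| - gg (r + s)) := by
  have hrs : 0 < r * s := mul_pos hr hs
  have hcont : Continuous fun u : ℝ =>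
      (1 / (r * s)) * gg (Real.sqrt (r ^ 2 + s ^ 2 - 2 * r * s * u)) :=
    continuous_const.mul (continuous_gg.comp (by fun_prop))
  have hderiv : ∀ u ∈ Ioo (-1 : ℝ) 1, HasDerivAt (fun u : ℝ =>
      (1 / (r * s)) * gg (Real.sqrt (r ^ 2 + s ^ 2 - 2 * r * s * u)))
      (Real.exp (-Real.sqrt (r ^ 2 + s ^ 2 - 2 * r * s * u))) u := by
    intro u hu
    have hpos : 0 < r ^ 2 + s ^ 2 - 2 * r * s * u := by
      nlinarith [sq_nonneg (r - s), hu.2, hrs]
    have hsq : 0 < Real.sqrt (r ^ 2 + s ^ 2 - 2 * r * s * u) := Real.sqrt_pos.2 hpos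
    have h1 : HasDerivAt (fun u : ℝ => r ^ 2 + s ^ 2 - 2 * r * s * u) (-(2 * r * s)) u := by
      have := ((hasDerivAt_id u).const_mul (2 * r * s)).const_sub (r ^ 2 + s ^ 2)
      simpa using this
    have h2 := h1.sqrt hpos.ne'
    have h3 := ((hasDerivAt_gg _).comp u h2).const_mul (1 / (r * s))
    refine h3.congr_deriv ?_
    generalize Real.sqrt (r ^ 2 + s ^ 2 - 2 * r * s * u) = q at hsq
    have hq := hsq.ne'
    field_simp
  have h := intervalIntegral.integral_eq_sub_of_hasDerivAt_of_le (by norm_num : (-1 : ℝ) ≤ 1)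
    hcont.continuousOn hderiv
    ((by fun_prop : Continuous fun u : ℝ =>
      Real.exp (-Real.sqrt (r ^ 2 + s ^ 2 - 2 * r * s * u))).intervalIntegrable _ _)
  rw [h]
  have e1 : Real.sqrt (r ^ 2 + s ^ 2 - 2 * r * s * 1) = |r - s| := by
    rw [← Real.sqrt_sq_eq_abs]; congr 1; ring
  have e2 : Real.sqrt (r ^ 2 + s ^ 2 - 2 * r * s * (-1)) = r + s := by
    rw [show r ^ 2 + s ^ 2 - 2 * r * s * (-1) = (r + s) ^ 2 by ring,
      Real.sqrt_sq (by positivity)]
  rw [e1, e2]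
  ring

lemma exists_rot (x y : E3) (h : ‖x‖ = ‖y‖) : ∃ O : E3 ≃ₗᵢ[ℝ] E3, O x = y :=
  ⟨_, Submodule.reflection_sub h⟩

/-- potential of the (unnormalised) surface measure -/
lemma sphere_pot (x : E3) {s : ℝ} (hx : 0 < ‖x‖) (hs : 0 < s) :
    ∫ θ, Real.exp (-dist x (s • (θ : E3))) ∂sig =
      2 * Real.pi / (‖x‖ * s) * (gg |‖x‖ - s| - gg (‖x‖ + s)) := by
  set r := ‖x‖ with hr
  obtain ⟨O, hO⟩ := exists_rot x (r • EuclideanSpace.single 0 1) (by
    rw [norm_smul]; simp [hr])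
  have h1 : ∫ θ, Real.exp (-dist x (s • (θ : E3))) ∂sig =
      ∫ θ, Real.exp (-dist (O x) (s • (θ : E3))) ∂sig := by
    rw [← integral_sphere_rot (fun y => Real.exp (-dist (O x) (s • y))) O]
    congr 1
    ext θ
    rw [← map_smul, O.dist_map]
  have h2 : ∀ θ : sphere (0 : E3) 1, Real.exp (-dist (O x) (s • (θ : E3))) =
      (fun u => Real.exp (-Real.sqrt (r ^ 2 + s ^ 2 - 2 * r * s * u))) ((θ : E3) 0) := by
    intro θ
    have hθ : ‖(θ : E3)‖ = 1 := by simp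
    simp only
    congr 2
    rw [dist_eq_norm, ← Real.sqrt_sq (norm_nonneg _), norm_sub_sq_real, hO, norm_smul, norm_smul,
      hθ, real_inner_smul_left, real_inner_smul_right]
    congr 1
    have hin : inner ℝ (EuclideanSpace.single (0 : Fin 3) (1 : ℝ)) (θ : E3) = (θ : E3) 0 := by
      rw [EuclideanSpace.inner_single_left]; simp
    rw [hin]
    simp
    ring
  rw [h1]
  simp_rw [h2]
  rw [hatbox (F := fun u => Real.exp (-Real.sqrt (r ^ 2 + s ^ 2 - 2 * r * s * u))) (by fun_prop),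
    integral_exp_sqrt hx hs]
  field_simp

/-- potential of Lebesgue measure on a ball -/
lemma ball_pot (x : E3) {b : ℝ} (hx : 0 < ‖x‖) (hb : 0 ≤ b) :
    ∫ y in closedBall (0 : E3) b, Real.exp (-dist x y) =
      2 * Real.pi / ‖x‖ * ∫ ρ in (0 : ℝ)..b, ρ * (gg |‖x‖ - ρ| - gg (‖x‖ + ρ)) := by
  rw [← integral_indicator measurableSet_closedBall, integral_polar]
  · have h1 : ∫ ρ in Ioi (0 : ℝ), ρ ^ 2 * ∫ θ, (closedBall (0 : E3) b).indicator
        (fun y => Real.exp (-dist x y)) (ρ • (θ : E3)) ∂sig =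
        ∫ ρ in Ioi (0 : ℝ), (Iic b).indicator (fun ρ => 2 * Real.pi / ‖x‖ *
          (ρ * (gg |‖x‖ - ρ| - gg (‖x‖ + ρ)))) ρ := by
      refine setIntegral_congr_fun measurableSet_Ioi fun ρ hρ => ?_
      have hρ0 : 0 < ρ := hρ
      have h2 : ∀ θ : sphere (0 : E3) 1, ρ • (θ : E3) ∈ closedBall (0 : E3) b ↔ ρ ≤ b := by
        intro θ
        have hθ : ‖(θ : E3)‖ = 1 := by simp
        rw [mem_closedBall_zero_iff, norm_smul, hθ, mul_one, Real.norm_eq_abs, abs_of_pos hρ0]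
      by_cases hρb : ρ ≤ b
      · simp only [indicator, h2, hρb, mem_Iic, if_true]
        rw [sphere_pot x hx hρ0]
        field_simp
      · simp only [indicator, h2, hρb, mem_Iic, if_false, integral_zero, mul_zero]
    rw [h1, setIntegral_indicator measurableSet_Iic, Ioi_inter_Iic,
      ← intervalIntegral.integral_of_le hb, intervalIntegral.integral_const_mul]
  · rw [integrable_indicator_iff measurableSet_closedBall]
    exact (by fun_prop : Continuous fun y : E3 => Real.exp (-dist x y)).continuousOn.integrableOn_compact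
      (isCompact_closedBall _ _)

lemma J_outer {b r : ℝ} (hb : 0 ≤ b) (hbr : b ≤ r) :
    ∫ ρ in (0 : ℝ)..b, ρ * (gg |r - ρ| - gg (r + ρ)) =
      (-b ^ 2 + (3 + r) * (b - 1)) * Real.exp (-(r - b)) +
      (b ^ 2 + (3 + r) * (b + 1)) * Real.exp (-(r + b)) := by
  have h1 : ∫ ρ in (0 : ℝ)..b, ρ * (gg |r - ρ| - gg (r + ρ)) =
      ∫ ρ in (0 : ℝ)..b, ρ * (gg (r - ρ) - gg (r + ρ)) := by
    refine intervalIntegral.integral_congr fun ρ hρ => ?_
    rw [uIcc_of_le hb] at hρ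
    rw [abs_of_nonneg (by linarith [hρ.2])]
  rw [h1]
  have hderiv : ∀ ρ ∈ uIcc 0 b, HasDerivAt (fun ρ : ℝ =>
      (-ρ ^ 2 + (3 + r) * (ρ - 1)) * Real.exp (-(r - ρ)) +
      (ρ ^ 2 + (3 + r) * (ρ + 1)) * Real.exp (-(r + ρ)))
      (ρ * (gg (r - ρ) - gg (r + ρ))) ρ := by
    intro ρ _
    have d1 : HasDerivAt (fun ρ : ℝ => -ρ ^ 2 + (3 + r) * (ρ - 1)) (-(2 * ρ) + (3 + r)) ρ := by
      have a1 : HasDerivAt (fun ρ : ℝ => -ρ ^ 2) (-(2 * ρ)) ρ :=
        (hasDerivAt_pow 2 ρ).fun_neg.congr_deriv (by norm_num)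
      have a2 : HasDerivAt (fun ρ : ℝ => (3 + r) * (ρ - 1)) (3 + r) ρ := by
        simpa using ((hasDerivAt_id ρ).sub_const 1).const_mul (3 + r)
      exact a1.add a2
    have d2 : HasDerivAt (fun ρ : ℝ => Real.exp (-(r - ρ))) (Real.exp (-(r - ρ))) ρ := by
      have : HasDerivAt (fun ρ : ℝ => -(r - ρ)) 1 ρ :=
        ((hasDerivAt_id' ρ).const_sub r).fun_neg.congr_deriv (by norm_num)
      exact this.exp.congr_deriv (by ring)
    have d3 : HasDerivAt (fun ρ : ℝ => ρ ^ 2 + (3 + r) * (ρ + 1)) (2 * ρ + (3 + r)) ρ := by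
      have a1 : HasDerivAt (fun ρ : ℝ => ρ ^ 2) (2 * ρ) ρ := by
        simpa using (hasDerivAt_pow 2 ρ)
      have a2 : HasDerivAt (fun ρ : ℝ => (3 + r) * (ρ + 1)) (3 + r) ρ := by
        simpa using ((hasDerivAt_id ρ).add_const 1).const_mul (3 + r)
      exact a1.add a2
    have d4 : HasDerivAt (fun ρ : ℝ => Real.exp (-(r + ρ))) (-Real.exp (-(r + ρ))) ρ := by
      have : HasDerivAt (fun ρ : ℝ => -(r + ρ)) (-1) ρ :=
        ((hasDerivAt_id' ρ).const_add r).fun_neg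
      exact this.exp.congr_deriv (by ring)
    refine ((d1.fun_mul d2).fun_add (d3.fun_mul d4)).congr_deriv ?_
    unfold gg
    ring
  rw [intervalIntegral.integral_eq_sub_of_hasDerivAt hderiv]
  · simp
    ring
  · have : Continuous fun ρ : ℝ => ρ * (gg (r - ρ) - gg (r + ρ)) := by unfold gg; fun_prop
    exact this.intervalIntegrable _ _

lemma J_inner {b r : ℝ} (hr : 0 ≤ r) (hrb : r ≤ b) :
    ∫ ρ in (0 : ℝ)..b, ρ * (gg |r - ρ| - gg (r + ρ)) =
      4 * r + (-b ^ 2 + (r - 3) * (b + 1)) * Real.exp (-(b - r)) +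
      (b ^ 2 + (3 + r) * (b + 1)) * Real.exp (-(r + b)) := by
  have hc : Continuous fun ρ : ℝ => ρ * (gg |r - ρ| - gg (r + ρ)) := by unfold gg; fun_prop
  rw [← intervalIntegral.integral_add_adjacent_intervals (hc.intervalIntegrable 0 r)
    (hc.intervalIntegrable r b), J_outer hr le_rfl]
  have h1 : ∫ ρ in r..b, ρ * (gg |r - ρ| - gg (r + ρ)) =
      ∫ ρ in r..b, ρ * (gg (ρ - r) - gg (r + ρ)) := by
    refine intervalIntegral.integral_congr fun ρ hρ => ?_
    rw [uIcc_of_le hrb] at hρ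
    rw [abs_sub_comm, abs_of_nonneg (by linarith [hρ.1])]
  rw [h1]
  have hderiv : ∀ ρ ∈ uIcc r b, HasDerivAt (fun ρ : ℝ =>
      (-ρ ^ 2 + (r - 3) * (ρ + 1)) * Real.exp (-(ρ - r)) +
      (ρ ^ 2 + (3 + r) * (ρ + 1)) * Real.exp (-(r + ρ)))
      (ρ * (gg (ρ - r) - gg (r + ρ))) ρ := by
    intro ρ _
    have d1 : HasDerivAt (fun ρ : ℝ => -ρ ^ 2 + (r - 3) * (ρ + 1)) (-(2 * ρ) + (r - 3)) ρ := by
      have a1 : HasDerivAt (fun ρ : ℝ => -ρ ^ 2) (-(2 * ρ)) ρ :=
        (hasDerivAt_pow 2 ρ).fun_neg.congr_deriv (by norm_num)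
      have a2 : HasDerivAt (fun ρ : ℝ => (r - 3) * (ρ + 1)) (r - 3) ρ := by
        simpa using ((hasDerivAt_id ρ).add_const 1).const_mul (r - 3)
      exact a1.add a2
    have d2 : HasDerivAt (fun ρ : ℝ => Real.exp (-(ρ - r))) (-Real.exp (-(ρ - r))) ρ := by
      have : HasDerivAt (fun ρ : ℝ => -(ρ - r)) (-1) ρ :=
        ((hasDerivAt_id' ρ).sub_const r).fun_neg
      exact this.exp.congr_deriv (by ring)
    have d3 : HasDerivAt (fun ρ : ℝ => ρ ^ 2 + (3 + r) * (ρ + 1)) (2 * ρ + (3 + r)) ρ := by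
      have a1 : HasDerivAt (fun ρ : ℝ => ρ ^ 2) (2 * ρ) ρ := by
        simpa using (hasDerivAt_pow 2 ρ)
      have a2 : HasDerivAt (fun ρ : ℝ => (3 + r) * (ρ + 1)) (3 + r) ρ := by
        simpa using ((hasDerivAt_id ρ).add_const 1).const_mul (3 + r)
      exact a1.add a2
    have d4 : HasDerivAt (fun ρ : ℝ => Real.exp (-(r + ρ))) (-Real.exp (-(r + ρ))) ρ := by
      have : HasDerivAt (fun ρ : ℝ => -(r + ρ)) (-1) ρ :=
        ((hasDerivAt_id' ρ).const_add r).fun_neg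
      exact this.exp.congr_deriv (by ring)
    refine ((d1.fun_mul d2).fun_add (d3.fun_mul d4)).congr_deriv ?_
    unfold gg
    ring
  rw [intervalIntegral.integral_eq_sub_of_hasDerivAt hderiv]
  · simp
    ring
  · have : Continuous fun ρ : ℝ => ρ * (gg (ρ - r) - gg (r + ρ)) := by unfold gg; fun_prop
    exact this.intervalIntegrable _ _

end Pool.Agent.Helper67.MaxMeas
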