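import Pool.Agent.Helper67.MaxMeas.Div
import Pool.Agent.Helper67.MaxMeas.Pot
import Pool.Agent.Helper67.MaxMeas.Ana

open MeasureTheory Set Metric
open scoped ENNReal Topology
open Pool.Agent.Results.MP_91ee6f_gt

namespace Pool.Agent.Helper67.MaxMeas

lemma sig_real_univ : sig.real univ = 4 * Real.pi := by
  have h := hatbox (F := fun _ => (1 : ℝ)) continuous_const
  simp only [integral_const, smul_eq_mul, mul_one, intervalIntegral.integral_const] at h
  rw [h]
  ring

lemma sig_univ_ne_zero : sig univ ≠ 0 := by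
  intro h
  have := sig_real_univ
  rw [measureReal_def, h, ENNReal.toReal_zero] at this
  have hpi := Real.pi_pos
  linarith

lemma measurable_smul_sphere (s : ℝ) :
    Measurable (fun θ : sphere (0 : E3) 1 => s • (θ : E3)) := by fun_prop

instance isProb_sphereUnif (s : ℝ) : IsProbabilityMeasure (sphereUnif s) := by
  constructor
  unfold sphereUnif
  rw [Measure.smul_apply, Measure.map_apply (measurable_smul_sphere s) MeasurableSet.univ,
    preimage_univ, smul_eq_mul]
  exact ENNReal.inv_mul_cancel sig_univ_ne_zero (measure_ne_top _ _)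

lemma integral_sphereUnif (s : ℝ) {f : E3 → ℝ} (hf : Continuous f) :
    ∫ y, f y ∂(sphereUnif s) = (4 * Real.pi)⁻¹ * ∫ θ, f (s • (θ : E3)) ∂sig := by
  unfold sphereUnif
  rw [integral_smul_measure, integral_map (measurable_smul_sphere s).aemeasurable
    hf.aestronglyMeasurable, ENNReal.toReal_inv, ← measureReal_def, sig_real_univ, smul_eq_mul]

lemma continuous_kernel_right (x : E3) : Continuous fun y : E3 => Real.exp (-dist x y) := by
  fun_prop

lemma integrable_kernel (x : E3) (μ : Measure E3) [IsFiniteMeasure μ] :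
    Integrable (fun y => Real.exp (-dist x y)) μ := by
  refine (integrable_const (1 : ℝ)).mono' (continuous_kernel_right x).aestronglyMeasurable
    (Filter.Eventually.of_forall fun y => ?_)
  rw [Real.norm_eq_abs, abs_of_pos (Real.exp_pos _), Real.exp_le_one_iff]
  linarith [dist_nonneg (x := x) (y := y)]

lemma continuous_potential_E3 (μ : Measure E3) [IsFiniteMeasure μ] : Continuous (potential μ) := by
  refine continuous_of_dominated (bound := fun _ => 1) ?_ ?_ (integrable_const _) ?_
  · intro x
    exact (continuous_kernel_right x).aestronglyMeasurable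
  · intro x
    refine Filter.Eventually.of_forall fun y => ?_
    rw [Real.norm_eq_abs, abs_of_pos (Real.exp_pos _), Real.exp_le_one_iff]
    linarith [dist_nonneg (x := x) (y := y)]
  · exact Filter.Eventually.of_forall fun y => by fun_prop

lemma potential_sphereUnif (x : E3) {s : ℝ} (hx : 0 < ‖x‖) (hs : 0 < s) :
    potential (sphereUnif s) x = 1 / (2 * ‖x‖ * s) * (gg |‖x‖ - s| - gg (‖x‖ + s)) := by
  unfold potential
  rw [integral_sphereUnif s (continuous_kernel_right x), sphere_pot x hx hs]
  have hpi := Real.pi_pos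
  field_simp
  ring

instance isFinite_wMeasure (b R : ℝ) : IsFiniteMeasure (wMeasure b R) := by
  have h1 : IsFiniteMeasure ((volume : Measure E3).restrict (closedBall 0 b)) :=
    ⟨by rw [Measure.restrict_apply_univ]; exact measure_closedBall_lt_top⟩
  have h2 := Measure.smul_finite ((volume : Measure E3).restrict (closedBall 0 b))
    (ENNReal.ofReal_ne_top (r := 1 / (8 * Real.pi)))
  have h3 := Measure.smul_finite (sphereUnif b) (ENNReal.ofReal_ne_top (r := b * aIn b R))
  have h4 := Measure.smul_finite (sphereUnif R) (ENNReal.ofReal_ne_top (r := R * aOut b R))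
  unfold wMeasure
  infer_instance

lemma potential_wMeasure {b R : ℝ} (ha : 0 ≤ b * aIn b R) (hA : 0 ≤ R * aOut b R) (x : E3) :
    potential (wMeasure b R) x = 1 / (8 * Real.pi) * (∫ y in closedBall (0 : E3) b,
      Real.exp (-dist x y)) + b * aIn b R * potential (sphereUnif b) x +
      R * aOut b R * potential (sphereUnif R) x := by
  have h1 : IsFiniteMeasure ((volume : Measure E3).restrict (closedBall 0 b)) :=
    ⟨by rw [Measure.restrict_apply_univ]; exact measure_closedBall_lt_top⟩
  have h2 := Measure.smul_finite ((volume : Measure E3).restrict (closedBall 0 b))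
    (ENNReal.ofReal_ne_top (r := 1 / (8 * Real.pi)))
  have h3 := Measure.smul_finite (sphereUnif b) (ENNReal.ofReal_ne_top (r := b * aIn b R))
  have h4 := Measure.smul_finite (sphereUnif R) (ENNReal.ofReal_ne_top (r := R * aOut b R))
  unfold potential wMeasure
  rw [integral_add_measure (integrable_kernel x _) (integrable_kernel x _),
    integral_add_measure (integrable_kernel x _) (integrable_kernel x _),
    integral_smul_measure, integral_smul_measure, integral_smul_measure,
    ENNReal.toReal_ofReal (by positivity), ENNReal.toReal_ofReal ha, ENNReal.toReal_ofReal hA]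
  simp only [smul_eq_mul]

/-- common expression for `‖x‖ K w(x)` -/
noncomputable def Ypot (b R r : ℝ) : ℝ :=
  (1 / 4) * (∫ ρ in (0 : ℝ)..b, ρ * (gg |r - ρ| - gg (r + ρ))) +
    aIn b R / 2 * (gg |r - b| - gg (r + b)) + aOut b R / 2 * (gg |r - R| - gg (r + R))

lemma norm_mul_potential {b R : ℝ} (hb : 0 ≤ b) (hR : 0 < R) (ha : 0 ≤ b * aIn b R)
    (hA : 0 ≤ R * aOut b R) (x : E3) (hx : 0 < ‖x‖) :
    ‖x‖ * potential (wMeasure b R) x = Ypot b R ‖x‖ := by
  rw [potential_wMeasure ha hA, ball_pot x hx hb, potential_sphereUnif x hx hR]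
  unfold Ypot
  have hpi := Real.pi_pos
  rcases hb.eq_or_lt with rfl | hb
  · simp only [intervalIntegral.integral_same, mul_zero, zero_mul, zero_add, sub_zero, add_zero,
      abs_of_pos hx, sub_self]
    field_simp
  · rw [potential_sphereUnif x hx hb]
    field_simp
    ring

lemma Ypot_inner {b R r : ℝ} (hr : 0 < r) (hrb : r ≤ b) (hbR : b < R) : Ypot b R r = r := by
  unfold Ypot
  rw [J_inner hr.le hrb, abs_sub_comm r b, abs_of_nonneg (by linarith : 0 ≤ b - r),
    abs_sub_comm r R, abs_of_nonneg (by linarith : 0 ≤ R - r)]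
  unfold gg aIn aOut
  obtain ⟨l, hl⟩ : ∃ l, l = R - b := ⟨_, rfl⟩
  have hR : R = b + l := by linarith
  have hl0 : 0 < l := by linarith
  rw [← hl, hR]
  have e1 : Real.exp (-(b - r)) = Real.exp r / Real.exp b := by rw [← Real.exp_sub]; ring_nf
  have e2 : Real.exp (-(r + b)) = 1 / (Real.exp r * Real.exp b) := by
    rw [← Real.exp_add, Real.exp_neg, one_div]
  have e3 : Real.exp (-(b + l - r)) = Real.exp r / (Real.exp b * Real.exp l) := by
    rw [← Real.exp_add, ← Real.exp_sub]; ring_nf
  have e4 : Real.exp (-(r + (b + l))) = 1 / (Real.exp r * (Real.exp b * Real.exp l)) := by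
    rw [← Real.exp_add, ← Real.exp_add, Real.exp_neg, one_div]
  rw [e1, e2, e3, e4]
  have p1 := Real.exp_pos r
  have p2 := Real.exp_pos b
  have p3 := Real.exp_pos l
  field_simp
  ring

lemma Ypot_gap {b R r : ℝ} (hb : 0 ≤ b) (hbr : b ≤ r) (hrR : r ≤ R) (hbR : b < R) :
    Ypot b R r = r + fV (aIn b R) b (r - b) := by
  unfold Ypot
  rw [J_outer hb hbr, abs_of_nonneg (by linarith : 0 ≤ r - b),
    abs_sub_comm r R, abs_of_nonneg (by linarith : 0 ≤ R - r)]
  unfold gg aOut fV fC fA fB
  have hid : aIn b R = (b + 1 - (b + 2) / (R - b)) / 2 := rfl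
  rw [hid]
  obtain ⟨l, hl⟩ : ∃ l, l = R - b := ⟨_, rfl⟩
  obtain ⟨x, hx⟩ : ∃ x, x = r - b := ⟨_, rfl⟩
  have hR : R = b + l := by linarith
  have hr : r = b + x := by linarith
  have hl0 : 0 < l := by linarith
  rw [← hl, ← hx, hR, hr, Real.cosh_eq, Real.sinh_eq, Real.exp_neg x]
  have e1 : Real.exp (-(b + x + b)) = 1 / (Real.exp b ^ 2 * Real.exp x) := by
    rw [sq, ← Real.exp_add, ← Real.exp_add, Real.exp_neg, one_div]; ring_nf
  have e3 : Real.exp (-(b + l - (b + x))) = Real.exp x / Real.exp l := by
    rw [← Real.exp_sub]; ring_nf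
  have e4 : Real.exp (-(b + x + (b + l))) = 1 / (Real.exp b ^ 2 * Real.exp x * Real.exp l) := by
    rw [sq, ← Real.exp_add, ← Real.exp_add, ← Real.exp_add, Real.exp_neg, one_div]; ring_nf
  rw [e1, e3, e4]
  have p1 := Real.exp_pos x
  have p2 := Real.exp_pos b
  have p3 := Real.exp_pos l
  field_simp
  ring

lemma aOut_pos {b R : ℝ} (hb : 0 ≤ b) (hbR : b < R) : 0 < aOut b R := by
  have h : 0 < R - b := by linarith
  unfold aOut
  positivity

/-- `Kw ≥ 1` on the ball and `Kw = 1` on the contact set. -/
lemma kkt_punctured {b R : ℝ} (hb : 0 ≤ b) (hbR : b < R) (ha : 0 ≤ aIn b R)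
    (hV : fV (aIn b R) b (R - b) = 0) (x : E3) (hx : 0 < ‖x‖) :
    (‖x‖ ≤ R → 1 ≤ potential (wMeasure b R) x) ∧
    ((‖x‖ ≤ b ∨ ‖x‖ = R) → potential (wMeasure b R) x = 1) := by
  have hR : 0 < R := by linarith
  have hA := aOut_pos hb hbR
  have key := norm_mul_potential hb hR (by positivity) (by positivity) x hx
  constructor
  · intro hxR
    rcases le_total ‖x‖ b with h | h
    · rw [Ypot_inner hx h hbR] at key
      have : potential (wMeasure b R) x = 1 := by
        have := mul_left_cancel₀ hx.ne' (key.trans (mul_one _).symm)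
        exact this
      exact this.ge
    · rw [Ypot_gap hb h hxR hbR] at key
      have hnn := fV_nonneg hb hV.ge (x := ‖x‖ - b) ⟨by linarith, by linarith⟩
      have h2 : ‖x‖ * 1 ≤ ‖x‖ * potential (wMeasure b R) x := by rw [key]; linarith
      exact le_of_mul_le_mul_left h2 hx
  · rintro (h | h)
    · rw [Ypot_inner hx h hbR] at key
      exact mul_left_cancel₀ hx.ne' (key.trans (mul_one _).symm)
    · rw [Ypot_gap hb (by rw [h]; exact hbR.le) h.le hbR, h, hV, add_zero] at key
      rw [h] at hx
      exact mul_left_cancel₀ hx.ne' (key.trans (mul_one _).symm)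

lemma tendsto_smul_zero (μ : Measure E3) [IsFiniteMeasure μ] (e : E3) :
    Filter.Tendsto (fun t : ℝ => potential μ (t • e)) (𝓝[>] 0) (𝓝 (potential μ 0)) := by
  have h : Continuous fun t : ℝ => potential μ (t • e) :=
    (continuous_potential_E3 μ).comp (by fun_prop)
  have := (h.tendsto 0).mono_left (nhdsWithin_le_nhds (s := Ioi 0))
  simpa using this

lemma norm_smul_single {t : ℝ} (ht : 0 < t) :
    ‖t • (EuclideanSpace.single 0 1 : E3)‖ = t := by
  rw [norm_smul]
  simp [abs_of_pos ht]

lemma kkt_ge {b R : ℝ} (hb : 0 ≤ b) (hbR : b < R) (ha : 0 ≤ aIn b R)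
    (hV : fV (aIn b R) b (R - b) = 0) (x : E3) (hx : ‖x‖ ≤ R) :
    1 ≤ potential (wMeasure b R) x := by
  rcases (norm_nonneg x).eq_or_lt with h0 | h0
  · have hx0 : x = 0 := norm_eq_zero.1 h0.symm
    subst hx0
    refine ge_of_tendsto (tendsto_smul_zero (wMeasure b R) (EuclideanSpace.single 0 1)) ?_
    have hR : 0 < R := by linarith
    filter_upwards [Ioc_mem_nhdsGT hR] with t ht
    have hn := norm_smul_single ht.1
    exact (kkt_punctured hb hbR ha hV _ (by rw [hn]; exact ht.1)).1 (by rw [hn]; exact ht.2)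
  · exact (kkt_punctured hb hbR ha hV x h0).1 hx

lemma kkt_eq {b R : ℝ} (hb : 0 < b) (hbR : b < R) (ha : 0 ≤ aIn b R)
    (hV : fV (aIn b R) b (R - b) = 0) (x : E3) (hx : ‖x‖ ≤ b ∨ ‖x‖ = R) :
    potential (wMeasure b R) x = 1 := by
  rcases (norm_nonneg x).eq_or_lt with h0 | h0
  · have hx0 : x = 0 := norm_eq_zero.1 h0.symm
    subst hx0
    refine tendsto_nhds_unique
      (tendsto_smul_zero (wMeasure b R) (EuclideanSpace.single 0 1)) ?_
    refine Filter.Tendsto.congr' ?_ tendsto_const_nhds
    filter_upwards [Ioc_mem_nhdsGT hb] with t ht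
    have hn := norm_smul_single ht.1
    exact ((kkt_punctured hb.le hbR ha hV _ (by rw [hn]; exact ht.1)).2
      (Or.inl (by rw [hn]; exact ht.2))).symm
  · exact (kkt_punctured hb.le hbR ha hV x h0).2 hx

/-! ### Supports -/

lemma support_smul {X : Type*} [TopologicalSpace X] [MeasurableSpace X] (μ : Measure X)
    {c : ℝ≥0∞} (hc : c ≠ 0) : (c • μ).support = μ.support := by
  ext x
  simp only [Measure.mem_support_iff_forall, Measure.smul_apply, smul_eq_mul, pos_iff_ne_zero,
    mul_ne_zero_iff, hc, ne_eq, not_false_eq_true, true_and]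

lemma support_sphereUnif {s : ℝ} (hs : 0 < s) : (sphereUnif s).support = sphere (0 : E3) s := by
  apply Subset.antisymm
  · refine Measure.support_subset_of_isClosed isClosed_sphere ?_
    rw [mem_ae_iff]
    unfold sphereUnif
    rw [Measure.smul_apply, Measure.map_apply (measurable_smul_sphere s)
      isClosed_sphere.measurableSet.compl]
    have : (fun θ : sphere (0 : E3) 1 => s • (θ : E3)) ⁻¹' (sphere (0 : E3) s)ᶜ = ∅ := by
      rw [eq_empty_iff_forall_notMem]
      intro θ hθ
      apply hθ
      rw [mem_sphere_zero_iff_norm, norm_smul, norm_eq_of_mem_sphere θ, mul_one, Real.norm_eq_abs,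
        abs_of_pos hs]
    rw [this, measure_empty, smul_zero]
  · intro x hx
    rw [Measure.support_eq_forall_isOpen]
    intro U hxU hU
    unfold sphereUnif
    rw [Measure.smul_apply, Measure.map_apply (measurable_smul_sphere s) hU.measurableSet,
      smul_eq_mul]
    have hx' : ‖x‖ = s := by simpa using hx
    have hopen : IsOpen ((fun θ : sphere (0 : E3) 1 => s • (θ : E3)) ⁻¹' U) :=
      hU.preimage (by fun_prop)
    have hne : ((fun θ : sphere (0 : E3) 1 => s • (θ : E3)) ⁻¹' U).Nonempty := by
      refine ⟨⟨s⁻¹ • x, ?_⟩, ?_⟩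
      · rw [mem_sphere_zero_iff_norm, norm_smul, hx', norm_inv, Real.norm_eq_abs, abs_of_pos hs,
          inv_mul_cancel₀ hs.ne']
      · simp only [mem_preimage, smul_smul, mul_inv_cancel₀ hs.ne', one_smul]
        exact hxU
    exact ENNReal.mul_pos (ENNReal.inv_ne_zero.2 (measure_ne_top _ _))
      (hopen.measure_pos sig hne).ne'

lemma support_restrict_ball {b : ℝ} (hb : 0 < b) :
    ((volume : Measure E3).restrict (closedBall 0 b)).support = closedBall 0 b := by
  apply Subset.antisymm
  · refine Measure.support_restrict_subset.trans ?_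
    rw [isClosed_closedBall.closure_eq]
    exact inter_subset_left
  · have h1 : ball (0 : E3) b ⊆ ((volume : Measure E3).restrict (closedBall 0 b)).support := by
      intro x hx
      apply Measure.interior_inter_support
      rw [Measure.support_eq_univ, inter_univ, interior_closedBall _ hb.ne']
      exact hx
    have h2 := closure_minimal h1 Measure.isClosed_support
    rwa [closure_ball (0 : E3) hb.ne'] at h2

lemma support_wMeasure {b R : ℝ} (hb : 0 < b) (hbR : b < R) (ha : 0 < aIn b R) :
    (wMeasure b R).support = closedBall 0 b ∪ sphere 0 R := by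
  have hR : 0 < R := by linarith
  have hA := aOut_pos hb.le hbR
  have hpi := Real.pi_pos
  unfold wMeasure
  rw [Measure.support_add, Measure.support_add,
    support_smul _ (ENNReal.ofReal_pos.2 (by positivity)).ne',
    support_smul _ (ENNReal.ofReal_pos.2 (by positivity)).ne',
    support_smul _ (ENNReal.ofReal_pos.2 (by positivity)).ne',
    support_restrict_ball hb, support_sphereUnif hb, support_sphereUnif hR]
  congr 1
  exact union_eq_left.2 sphere_subset_closedBall

/-- A ball of positive radius union an outer sphere is not a finite union of spheres. -/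
lemma not_finite_union_spheres {b R : ℝ} (hb : 0 < b) :
    ¬ ∃ F : Set ℝ, F.Finite ∧
      closedBall (0 : E3) b ∪ sphere 0 R = ⋃ r ∈ F, sphere (0 : E3) r := by
  rintro ⟨F, hF, h⟩
  have : Ioo 0 b ⊆ F := by
    intro t ht
    have hn := norm_smul_single ht.1
    have hmem : t • (EuclideanSpace.single 0 1 : E3) ∈ closedBall (0 : E3) b ∪ sphere 0 R := by
      left
      rw [mem_closedBall_zero_iff, hn]
      exact ht.2.le
    rw [h] at hmem
    simp only [mem_iUnion, mem_sphere_zero_iff_norm, hn, exists_prop] at hmem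
    obtain ⟨r, hr, htr⟩ := hmem
    rw [htr]
    exact hr
  exact (Ioo_infinite hb) (hF.subset this)

/-! ### Transfer to the ball as a metric space -/

lemma measurableEmbedding_val (R : ℝ) :
    MeasurableEmbedding (Subtype.val : closedBall (0 : E3) R → E3) :=
  MeasurableEmbedding.subtype_coe isClosed_closedBall.measurableSet

lemma potential_subtype {R : ℝ} (μ : Measure (closedBall (0 : E3) R)) (x : closedBall (0 : E3) R) :
    potential μ x = potential (μ.map Subtype.val) (x : E3) := by
  unfold potential
  rw [(measurableEmbedding_val R).integral_map]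
  rfl

lemma bilX_subtype {R : ℝ} (μ ν : Measure (closedBall (0 : E3) R)) :
    bilX μ ν = bil (μ.map Subtype.val) (ν.map Subtype.val) := by
  unfold bilX bil
  rw [(measurableEmbedding_val R).integral_map]
  congr 1
  ext x
  rw [potential_subtype]
  rfl

lemma mem_support_subtype {R : ℝ} {μ : Measure (closedBall (0 : E3) R)}
    {x : closedBall (0 : E3) R} (hx : x ∈ μ.support) : (x : E3) ∈ (μ.map Subtype.val).support := by
  rw [Measure.support_eq_forall_isOpen] at hx ⊢
  intro U hxU hU
  rw [(measurableEmbedding_val R).map_apply]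
  exact hx _ hxU (hU.preimage continuous_subtype_val)

/-- criterion in the ball -/
theorem criterion {R : ℝ} (μ : Measure (closedBall (0 : E3) R)) [IsProbabilityMeasure μ]
    {c : ℝ} (hc : 0 < c) (h1 : ∀ x : E3, ‖x‖ ≤ R → c ≤ potential (μ.map Subtype.val) x)
    (h2 : ∀ x ∈ (μ.map Subtype.val).support, potential (μ.map Subtype.val) x = c) :
    IsMaximising μ ∧ (∀ q, diversity q μ = c⁻¹) ∧
      ∀ ν : Measure (closedBall (0 : E3) R), IsMaximising ν → ν = μ := by
  have hcomp : CompactSpace (closedBall (0 : E3) R) :=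
    isCompact_iff_compactSpace.1 (isCompact_closedBall _ _)
  refine isMaximising_of_kkt μ hc ?_ ?_ ?_ ?_
  · intro x
    rw [potential_subtype]
    exact h1 x (mem_closedBall_zero_iff.1 x.2)
  · intro x hx
    rw [potential_subtype]
    exact h2 x (mem_support_subtype hx)
  · intro ν₁ ν₂ _ _
    rw [bilX_subtype, bilX_subtype, bilX_subtype, bilX_subtype]
    exact bil_sub_nonneg _ _
  · intro ν₁ ν₂ _ _ h
    rw [bilX_subtype, bilX_subtype, bilX_subtype, bilX_subtype] at h
    have := eq_of_bil_sub_eq_zero _ _ h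
    have h3 := congrArg (Measure.comap (Subtype.val : closedBall (0 : E3) R → E3)) this
    rwa [(measurableEmbedding_val R).comap_map, (measurableEmbedding_val R).comap_map] at h3

/-- From a measure on `ℝ³` concentrated on the ball, to a statement in the ball. -/
theorem criterion' {R : ℝ} (w : Measure E3) [IsProbabilityMeasure w]
    (hw : w (closedBall (0 : E3) R)ᶜ = 0)
    {c : ℝ} (hc : 0 < c) (h1 : ∀ x : E3, ‖x‖ ≤ R → c ≤ potential w x)
    (h2 : ∀ x ∈ w.support, potential w x = c) :
    ∃ μ : Measure (closedBall (0 : E3) R), μ.map Subtype.val = w ∧ IsMaximising μ ∧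
      (∀ q, diversity q μ = c⁻¹) ∧ ∀ ν : Measure (closedBall (0 : E3) R), IsMaximising ν → ν = μ := by
  have hmap : (w.comap (Subtype.val : closedBall (0 : E3) R → E3)).map Subtype.val = w := by
    rw [(measurableEmbedding_val R).map_comap, Subtype.range_coe]
    exact Measure.restrict_eq_self_of_ae_mem (by rw [ae_iff]; exact hw)
  have hprob : IsProbabilityMeasure (w.comap (Subtype.val : closedBall (0 : E3) R → E3)) := by
    constructor
    have h3 : (w.comap (Subtype.val : closedBall (0 : E3) R → E3)).map Subtype.val univ =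
      w univ := by rw [hmap]
    rw [(measurableEmbedding_val R).map_apply, preimage_univ, measure_univ (μ := w)] at h3
    exact h3
  refine ⟨w.comap Subtype.val, hmap, ?_⟩
  refine criterion _ hc ?_ ?_
  · rw [hmap]; exact h1
  · rw [hmap]; exact h2

end Pool.Agent.Helper67.MaxMeas
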