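import Pool.Agent.Helper67.MaxMeas.Defs

open MeasureTheory Set Metric
open scoped ENNReal
open Pool.Agent.Results.MP_91ee6f_gt

namespace Pool.Agent.Helper67.MaxMeas

/-- surface measure on the unit sphere -/
noncomputable abbrev sig : Measure (sphere (0 : E3) 1) := (volume : Measure E3).toSphere

lemma finrank_E3 : Module.finrank ℝ E3 = 3 := by simp

/-- polar coordinates, product form -/
lemma integral_polar_prod (f : E3 → ℝ) :
    ∫ y, f y = ∫ p : sphere (0 : E3) 1 × Ioi (0 : ℝ), f ((p.2 : ℝ) • (p.1 : E3))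
      ∂(sig.prod (Measure.volumeIoiPow 2)) := by
  have hmp := (volume : Measure E3).measurePreserving_homeomorphUnitSphereProd
  rw [finrank_E3] at hmp
  have h2 : (3 - 1 : ℕ) = 2 := rfl
  rw [h2] at hmp
  calc ∫ y, f y = ∫ y : ({(0 : E3)}ᶜ : Set E3), f y ∂(volume.comap (Subtype.val)) := by
        rw [integral_subtype_comap (measurableSet_singleton _).compl f,
          restrict_compl_singleton]
    _ = _ := by
        rw [← hmp.integral_comp (Homeomorph.measurableEmbedding _)]
        congr 1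
        ext y
        congr 1
        have := (homeomorphUnitSphereProd E3).symm_apply_apply y
        conv_lhs => rw [← this]
        rw [homeomorphUnitSphereProd_symm_apply_coe]

lemma integral_volumeIoiPow (φ : ℝ → ℝ) :
    ∫ r : Ioi (0 : ℝ), φ r ∂(Measure.volumeIoiPow 2) = ∫ r in Ioi (0 : ℝ), r ^ 2 * φ r := by
  simp only [Measure.volumeIoiPow, ENNReal.ofReal]
  rw [integral_withDensity_eq_integral_smul,
    integral_subtype_comap measurableSet_Ioi fun a ↦ Real.toNNReal (a ^ 2) • φ a,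
    setIntegral_congr_fun measurableSet_Ioi fun x hx ↦ ?_]
  · rw [NNReal.smul_def, Real.coe_toNNReal _ (pow_nonneg hx.out.le _)]
    rfl
  · exact (measurable_subtype_coe.pow_const _).real_toNNReal

lemma integral_polar {f : E3 → ℝ} (hf : Integrable f) :
    ∫ y, f y = ∫ r in Ioi (0 : ℝ), r ^ 2 * ∫ θ, f (r • (θ : E3)) ∂sig := by
  rw [integral_polar_prod, integral_prod_symm]
  · exact integral_volumeIoiPow (fun r => ∫ θ, f (r • (θ : E3)) ∂sig)
  · have hmp := (volume : Measure E3).measurePreserving_homeomorphUnitSphereProd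
    rw [finrank_E3] at hmp
    have h2 : (3 - 1 : ℕ) = 2 := rfl
    rw [h2] at hmp
    rw [← hmp.integrable_comp_emb (Homeomorph.measurableEmbedding _)]
    have h3 : (fun p : sphere (0 : E3) 1 × Ioi (0 : ℝ) => f ((p.2 : ℝ) • (p.1 : E3))) ∘
        (homeomorphUnitSphereProd E3) = fun y : ({(0 : E3)}ᶜ : Set E3) => f y := by
      ext y
      simp only [Function.comp_apply]
      congr 1
      have := (homeomorphUnitSphereProd E3).symm_apply_apply y
      conv_rhs => rw [← this]
      rw [homeomorphUnitSphereProd_symm_apply_coe]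
    rw [h3]
    have := (hf.integrableOn (s := ({(0 : E3)}ᶜ : Set E3)))
    rwa [integrableOn_iff_comap_subtypeVal (measurableSet_singleton _).compl] at this

/-- spherical mean = ball average of the radial extension -/
lemma integral_sphere_eq_ball (f : E3 → ℝ) :
    ∫ y, (ball (0 : E3) 1).indicator (fun y => f (‖y‖⁻¹ • y)) y = (1 / 3) * ∫ θ, f (θ : E3) ∂sig := by
  rw [integral_polar_prod]
  have h1 : ∀ p : sphere (0 : E3) 1 × Ioi (0 : ℝ),
      (ball (0 : E3) 1).indicator (fun y => f (‖y‖⁻¹ • y)) ((p.2 : ℝ) • (p.1 : E3)) =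
      f (p.1 : E3) * ((Iio (1 : ℝ)).indicator (fun _ => (1 : ℝ)) (p.2 : ℝ)) := by
    rintro ⟨⟨θ, hθ⟩, ⟨r, hr⟩⟩
    have hr0 : 0 < r := hr
    have hθ1 : ‖θ‖ = 1 := by simpa using hθ
    have hn : ‖r • θ‖ = r := by rw [norm_smul, hθ1, mul_one, Real.norm_eq_abs, abs_of_pos hr0]
    simp only [indicator, mem_ball, dist_zero_right, hn, mem_Iio]
    split_ifs
    · rw [smul_smul, inv_mul_cancel₀ hr0.ne', one_smul, mul_one]
    · simp
  simp_rw [h1]
  rw [integral_prod_mul (fun θ : sphere (0 : E3) 1 => f (θ : E3))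
    (fun r : Ioi (0 : ℝ) => (Iio (1 : ℝ)).indicator (fun _ => (1 : ℝ)) (r : ℝ)),
    integral_volumeIoiPow (fun r => (Iio (1 : ℝ)).indicator (fun _ => (1 : ℝ)) r)]
  have h2 : ∫ r in Ioi (0 : ℝ), r ^ 2 * (Iio (1 : ℝ)).indicator (fun _ => (1 : ℝ)) r = 1 / 3 := by
    have : ∀ r : ℝ, r ^ 2 * (Iio (1 : ℝ)).indicator (fun _ => (1 : ℝ)) r =
        (Iio (1 : ℝ)).indicator (fun r => r ^ 2) r := by
      intro r
      simp only [indicator]
      split_ifs <;> simp
    simp_rw [this]
    rw [setIntegral_indicator measurableSet_Iio, Ioi_inter_Iio,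
      ← integral_Ioc_eq_integral_Ioo, ← intervalIntegral.integral_of_le zero_le_one]
    norm_num
  rw [h2]
  ring

/-- rotation invariance -/
lemma integral_sphere_rot (f : E3 → ℝ) (O : E3 ≃ₗᵢ[ℝ] E3) :
    ∫ θ, f (O (θ : E3)) ∂sig = ∫ θ, f (θ : E3) ∂sig := by
  have h1 := integral_sphere_eq_ball (fun y => f (O y))
  have h2 := integral_sphere_eq_ball f
  have h3 : ∫ y, (ball (0 : E3) 1).indicator (fun y => f (O (‖y‖⁻¹ • y))) y =
      ∫ y, (ball (0 : E3) 1).indicator (fun y => f (‖y‖⁻¹ • y)) y := by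
    have h4 := O.measurePreserving.integral_comp O.toHomeomorph.measurableEmbedding
      ((ball (0 : E3) 1).indicator (fun y => f (‖y‖⁻¹ • y)))
    rw [← h4]
    congr 1
    ext y
    simp only [indicator, mem_ball, dist_zero_right, O.norm_map, map_smul]
  rw [h1, h2] at h3
  linarith

/-- volume preserving identification `E3 ≃ ℝ × (ℝ × ℝ)` -/
noncomputable def coordEquiv : E3 ≃ᵐ ℝ × (ℝ × ℝ) :=
  (MeasurableEquiv.toLp 2 (Fin 3 → ℝ)).symm.trans
    ((MeasurableEquiv.piFinSuccAbove (fun _ : Fin 3 => ℝ) 0).trans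
      ((MeasurableEquiv.refl ℝ).prodCongr MeasurableEquiv.finTwoArrow))

lemma coordEquiv_apply (y : E3) : coordEquiv y = (y 0, (y 1, y 2)) := by
  rfl

lemma coordEquiv_mp : MeasurePreserving coordEquiv := by
  unfold coordEquiv
  refine (EuclideanSpace.volume_preserving_symm_measurableEquiv_toLp (Fin 3)).trans ?_
  refine (volume_preserving_piFinSuccAbove (fun _ : Fin 3 => ℝ) 0).trans ?_
  exact (MeasurePreserving.id volume).prod (volume_preserving_finTwoArrow ℝ)

lemma norm_sq_E3 (y : E3) : ‖y‖ ^ 2 = y 0 ^ 2 + y 1 ^ 2 + y 2 ^ 2 := by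
  rw [EuclideanSpace.real_norm_sq_eq, Fin.sum_univ_three]

/-- radial integrals in the plane -/
lemma integral_radial_R2 (G : ℝ → ℝ) :
    ∫ p : ℝ × ℝ, G (Real.sqrt (p.1 ^ 2 + p.2 ^ 2)) = 2 * Real.pi * ∫ ρ in Ioi (0 : ℝ), ρ * G ρ := by
  rw [← integral_comp_polarCoord_symm]
  have h1 : ∫ p in polarCoord.target,
      p.1 • G (Real.sqrt ((polarCoord.symm p).1 ^ 2 + (polarCoord.symm p).2 ^ 2)) =
      ∫ p in Ioi (0 : ℝ) ×ˢ Ioo (-Real.pi) Real.pi, (p.1 * G p.1) * 1 := by
    refine setIntegral_congr_fun (measurableSet_Ioi.prod measurableSet_Ioo) ?_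
    rintro ⟨r, θ⟩ ⟨hr, -⟩
    have hr0 : 0 < r := hr
    simp only [polarCoord_symm_apply, smul_eq_mul, mul_one]
    congr 2
    rw [show (r * Real.cos θ) ^ 2 + (r * Real.sin θ) ^ 2 = r ^ 2 by
      have := Real.sin_sq_add_cos_sq θ
      linear_combination r ^ 2 * this, Real.sqrt_sq hr0.le]
  rw [h1]
  rw [Measure.volume_eq_prod, setIntegral_prod_mul (fun r : ℝ => r * G r) (fun _ : ℝ => (1 : ℝ))]
  have h2 : ∫ _ in Ioo (-Real.pi) Real.pi, (1 : ℝ) = 2 * Real.pi := by
    simp [Real.volume_real_Ioo_of_le (by linarith [Real.pi_pos] : -Real.pi ≤ Real.pi)]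
    ring
  rw [h2]
  ring

/-- bounded measurable functions with bounded support are integrable -/
lemma integrable_of_bdd_supp {α : Type*} [MeasurableSpace α] [PseudoMetricSpace α] [ProperSpace α]
    [OpensMeasurableSpace α] {μ : Measure α} [IsFiniteMeasureOnCompacts μ] {f : α → ℝ}
    (hf : Measurable f) {C : ℝ} (hC : ∀ x, |f x| ≤ C) (x0 : α) (r : ℝ)
    (hs : ∀ x, r < dist x x0 → f x = 0) : Integrable f μ := by
  have h1 : IntegrableOn f (closedBall x0 r) μ :=
    Measure.integrableOn_of_bounded (M := C) (measure_closedBall_lt_top).ne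
      hf.aestronglyMeasurable (Filter.Eventually.of_forall fun x => hC x)
  rw [← integrableOn_iff_integrable_of_support_subset (s := closedBall x0 r)]
  · exact h1
  · intro x hx
    rw [mem_closedBall]
    by_contra h
    exact hx (hs x (not_le.1 h))

/-- the planar integrand -/
noncomputable def G2 (F : ℝ → ℝ) (t ρ : ℝ) : ℝ :=
  if t ^ 2 + ρ ^ 2 < 1 then F (t / Real.sqrt (t ^ 2 + ρ ^ 2)) else 0

lemma div_sqrt_mem (t ρ : ℝ) : t / Real.sqrt (t ^ 2 + ρ ^ 2) ∈ Icc (-1 : ℝ) 1 := by
  rcases eq_or_lt_of_le (Real.sqrt_nonneg (t ^ 2 + ρ ^ 2)) with h | h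
  · rw [← h]; simp
  · have h1 : |t| ≤ Real.sqrt (t ^ 2 + ρ ^ 2) := by
      rw [← Real.sqrt_sq_eq_abs]
      exact Real.sqrt_le_sqrt (by nlinarith [sq_nonneg ρ])
    rw [mem_Icc, ← abs_le, abs_div, abs_of_pos h, div_le_one h]
    exact h1

/-- Archimedes' hat-box theorem. -/
lemma hatbox {F : ℝ → ℝ} (hF : Continuous F) :
    ∫ θ, F ((θ : E3) 0) ∂sig = 2 * Real.pi * ∫ u in (-1 : ℝ)..1, F u := by
  obtain ⟨C, hC⟩ : ∃ C, ∀ u ∈ Icc (-1 : ℝ) 1, |F u| ≤ C := by
    obtain ⟨C, hC⟩ := isCompact_Icc.exists_bound_of_continuousOn hF.continuousOn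
    exact ⟨C, fun u hu => by simpa using hC u hu⟩
  have hC0 : 0 ≤ C := (abs_nonneg _).trans (hC 0 (by simp))
  have hb := integral_sphere_eq_ball (fun y => F (y 0))
  -- step 1: move to `ℝ × (ℝ × ℝ)`
  set H : ℝ × (ℝ × ℝ) → ℝ := fun q => G2 F q.1 (Real.sqrt (q.2.1 ^ 2 + q.2.2 ^ 2)) with hH
  have e1 : ∫ y, (ball (0 : E3) 1).indicator (fun y => F ((‖y‖⁻¹ • y) 0)) y = ∫ q, H q := by
    rw [← coordEquiv_mp.integral_comp' H]
    congr 1
    ext y
    have hn : y 0 ^ 2 + (Real.sqrt (y 1 ^ 2 + y 2 ^ 2)) ^ 2 = ‖y‖ ^ 2 := by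
      rw [Real.sq_sqrt (by positivity), norm_sq_E3]; ring
    simp only [hH, coordEquiv_apply, G2, hn, indicator, mem_ball, dist_zero_right,
      Real.sqrt_sq (norm_nonneg y)]
    have : (‖y‖ ^ 2 < 1) ↔ ‖y‖ < 1 := by
      rw [sq_lt_one_iff₀ (norm_nonneg y)]
    simp only [this]
    split_ifs
    · congr 1
      simp [div_eq_inv_mul]
    · rfl
  have hHm : Measurable H := by
    simp only [hH, G2]
    refine Measurable.ite ?_ ?_ measurable_const
    · exact measurableSet_lt (by fun_prop) measurable_const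
    · exact hF.measurable.comp (by fun_prop)
  have hHint : Integrable H (volume.prod volume) := by
    refine integrable_of_bdd_supp hHm (C := C) (fun q => ?_) 0 1 (fun q hq => ?_)
    · simp only [hH, G2]
      split_ifs
      · exact hC _ (div_sqrt_mem _ _)
      · simpa using hC0
    · simp only [hH, G2]
      rw [if_neg]
      intro h
      rw [Real.sq_sqrt (by positivity)] at h
      have h1 : |q.1| ≤ 1 := by
        rw [abs_le_one_iff_mul_self_le_one]; nlinarith [sq_nonneg q.2.1, sq_nonneg q.2.2]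
      have h2 : |q.2.1| ≤ 1 := by
        rw [abs_le_one_iff_mul_self_le_one]; nlinarith [sq_nonneg q.1, sq_nonneg q.2.2]
      have h3 : |q.2.2| ≤ 1 := by
        rw [abs_le_one_iff_mul_self_le_one]; nlinarith [sq_nonneg q.1, sq_nonneg q.2.1]
      have h4 : dist q 0 ≤ 1 := by
        rw [Prod.dist_eq, Prod.dist_eq]
        simp only [Prod.fst_zero, Prod.snd_zero, Real.dist_eq, sub_zero]
        exact max_le h1 (max_le h2 h3)
      linarith
  -- step 2: integrate out the angle in the plane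
  have e2 : ∫ q, H q = Real.pi * ∫ t : ℝ, ∫ ρ : ℝ, |ρ| * G2 F t ρ := by
    rw [Measure.volume_eq_prod, integral_prod _ hHint, ← integral_const_mul]
    congr 1
    ext t
    rw [integral_radial_R2 (fun ρ => G2 F t ρ)]
    have : ∀ ρ : ℝ, |ρ| * G2 F t ρ = (fun x => x * G2 F t x) |ρ| := by
      intro ρ
      simp only [G2, sq_abs]
    simp_rw [this]
    rw [integral_comp_abs (f := fun x => x * G2 F t x)]
    ring
  -- step 3: polar coordinates in the (t, ρ) plane
  have hKm : Measurable (fun p : ℝ × ℝ => |p.2| * G2 F p.1 p.2) := by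
    simp only [G2]
    refine Measurable.mul (by fun_prop) (Measurable.ite ?_ ?_ measurable_const)
    · exact measurableSet_lt (by fun_prop) measurable_const
    · exact hF.measurable.comp (by fun_prop)
  have hKint : Integrable (fun p : ℝ × ℝ => |p.2| * G2 F p.1 p.2) (volume.prod volume) := by
    have key : ∀ p : ℝ × ℝ, p.1 ^ 2 + p.2 ^ 2 < 1 → |p.1| ≤ 1 ∧ |p.2| ≤ 1 := by
      intro p h
      constructor
      · rw [abs_le_one_iff_mul_self_le_one]; nlinarith [sq_nonneg p.2]
      · rw [abs_le_one_iff_mul_self_le_one]; nlinarith [sq_nonneg p.1]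
    refine integrable_of_bdd_supp hKm (C := C) (fun p => ?_) 0 1 (fun p hp => ?_)
    · simp only [G2]
      split_ifs with h
      · rw [abs_mul, abs_abs]
        calc |p.2| * |F (p.1 / Real.sqrt (p.1 ^ 2 + p.2 ^ 2))| ≤ 1 * C :=
              mul_le_mul (key p h).2 (hC _ (div_sqrt_mem _ _)) (abs_nonneg _) zero_le_one
          _ = C := one_mul C
      · simpa using hC0
    · simp only [G2]
      rw [if_neg, mul_zero]
      intro h
      have h4 : dist p 0 ≤ 1 := by
        rw [Prod.dist_eq]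
        simp only [Prod.fst_zero, Prod.snd_zero, Real.dist_eq, sub_zero]
        exact max_le (key p h).1 (key p h).2
      linarith
  have e3 : ∫ t : ℝ, ∫ ρ : ℝ, |ρ| * G2 F t ρ = ∫ p : ℝ × ℝ, |p.2| * G2 F p.1 p.2 := by
    rw [Measure.volume_eq_prod, integral_prod _ hKint]
  have e4 : ∫ p : ℝ × ℝ, |p.2| * G2 F p.1 p.2 =
      (1 / 3) * ∫ θ in Ioo (-Real.pi) Real.pi, |Real.sin θ| * F (Real.cos θ) := by
    rw [← integral_comp_polarCoord_symm]
    have h1 : ∫ p in polarCoord.target,
        p.1 • (|(polarCoord.symm p).2| * G2 F (polarCoord.symm p).1 (polarCoord.symm p).2) =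
        ∫ p in Ioi (0 : ℝ) ×ˢ Ioo (-Real.pi) Real.pi,
          ((Iio (1 : ℝ)).indicator (fun r => r ^ 2) p.1) * (|Real.sin p.2| * F (Real.cos p.2)) := by
      refine setIntegral_congr_fun (measurableSet_Ioi.prod measurableSet_Ioo) ?_
      rintro ⟨r, θ⟩ ⟨hr, -⟩
      have hr0 : 0 < r := hr
      have hsq : (r * Real.cos θ) ^ 2 + (r * Real.sin θ) ^ 2 = r ^ 2 := by
        have := Real.sin_sq_add_cos_sq θ
        linear_combination r ^ 2 * this
      simp only [polarCoord_symm_apply, smul_eq_mul, G2, hsq, Real.sqrt_sq hr0.le, indicator,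
        mem_Iio, sq_lt_one_iff₀ hr0.le]
      split_ifs
      · rw [mul_div_cancel_left₀ _ hr0.ne', abs_mul, abs_of_pos hr0]
        ring
      · ring
    rw [h1, Measure.volume_eq_prod, setIntegral_prod_mul
      (fun r : ℝ => (Iio (1 : ℝ)).indicator (fun r => r ^ 2) r)
      (fun θ : ℝ => |Real.sin θ| * F (Real.cos θ)),
      setIntegral_indicator measurableSet_Iio, Ioi_inter_Iio,
      ← integral_Ioc_eq_integral_Ioo, ← intervalIntegral.integral_of_le zero_le_one]
    norm_num
  -- step 4: substitution `u = cos θ`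
  have e5 : ∫ θ in Ioo (-Real.pi) Real.pi, |Real.sin θ| * F (Real.cos θ) =
      2 * ∫ u in (-1 : ℝ)..1, F u := by
    have hpi := Real.pi_pos
    rw [← integral_Ioc_eq_integral_Ioo,
      ← intervalIntegral.integral_of_le (by linarith : -Real.pi ≤ Real.pi)]
    have hcont : Continuous fun θ : ℝ => |Real.sin θ| * F (Real.cos θ) := by fun_prop
    rw [← intervalIntegral.integral_add_adjacent_intervals
      (hcont.intervalIntegrable (-Real.pi) 0) (hcont.intervalIntegrable 0 Real.pi)]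
    have hneg : ∫ θ in (-Real.pi)..0, |Real.sin θ| * F (Real.cos θ) =
        ∫ θ in (0 : ℝ)..Real.pi, |Real.sin θ| * F (Real.cos θ) := by
      have := intervalIntegral.integral_comp_neg (a := 0) (b := Real.pi)
        (fun θ => |Real.sin θ| * F (Real.cos θ))
      simp only [Real.sin_neg, Real.cos_neg, abs_neg, neg_zero] at this
      exact this.symm
    have hpos : ∫ θ in (0 : ℝ)..Real.pi, |Real.sin θ| * F (Real.cos θ) =
        ∫ u in (-1 : ℝ)..1, F u := by
      have h1 : ∫ θ in (0 : ℝ)..Real.pi, |Real.sin θ| * F (Real.cos θ) =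
          - ∫ θ in (0 : ℝ)..Real.pi, (F ∘ Real.cos) θ * (-Real.sin θ) := by
        rw [← intervalIntegral.integral_neg]
        refine intervalIntegral.integral_congr fun θ hθ => ?_
        rw [uIcc_of_le hpi.le] at hθ
        simp only [Function.comp_apply, abs_of_nonneg (Real.sin_nonneg_of_mem_Icc hθ)]
        ring
      rw [h1, intervalIntegral.integral_comp_mul_deriv (fun θ _ => Real.hasDerivAt_cos θ)
        (by fun_prop) hF, Real.cos_zero, Real.cos_pi, ← intervalIntegral.integral_symm]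
    rw [hneg, hpos]
    ring
  rw [e1, e2, e3, e4, e5] at hb
  linarith

end Pool.Agent.Helper67.MaxMeas
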